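import Mathlib

set_option autoImplicit false
open MeasureTheory Set Function
open scoped ENNReal

namespace Pool.Agent.Helper23.EA

/-- spin value of a Boolean -/
def sp (b : Bool) : ℝ := if b then 1 else -1

lemma sp_mul_self (b : Bool) : sp b * sp b = 1 := by cases b <;> simp [sp]
lemma sp_not (b : Bool) : sp (!b) = - sp b := by cases b <;> simp [sp]
lemma sp_eq_or (b : Bool) : sp b = 1 ∨ sp b = -1 := by cases b <;> simp [sp]
lemma abs_sp (b : Bool) : |sp b| = 1 := by cases b <;> simp [sp]
lemma sp_injective : Function.Injective sp := by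
  intro x y h; cases x <;> cases y <;> simp [sp] at h ⊢ <;> norm_num at h

section resample

variable {ι : Type*} [DecidableEq ι] {X : ι → Type*} [∀ i, MeasurableSpace (X i)]
  (μ : ∀ i, Measure (X i)) [∀ i, IsProbabilityMeasure (μ i)]

/-- Resampling one coordinate preserves the product measure. -/
lemma map_update_prod (e : ι) :
    ((μ e).prod (Measure.infinitePi μ)).map (fun p => Function.update p.2 e p.1)
      = Measure.infinitePi μ := by
  have hmeas : Measurable (fun p : X e × (∀ i, X i) => Function.update p.2 e p.1) := by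
    refine measurable_pi_iff.2 fun i => ?_
    by_cases h : i = e
    · subst h; simpa using measurable_fst
    · simp only [Function.update_of_ne h]
      exact (measurable_pi_apply i).comp measurable_snd
  refine Measure.eq_infinitePi μ fun s t ht => ?_
  rw [Measure.map_apply hmeas (MeasurableSet.pi s.countable_toSet fun i _ => ht i)]
  by_cases hes : e ∈ s
  · have hpre : (fun p : X e × (∀ i, X i) => Function.update p.2 e p.1) ⁻¹' (Set.pi s t)
        = t e ×ˢ (Set.pi (s.erase e : Finset ι) t) := by
      ext ⟨x, J⟩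
      simp only [mem_preimage, Set.mem_pi, mem_prod, Finset.mem_coe, Finset.mem_erase]
      constructor
      · intro h
        refine ⟨by simpa using h e hes, fun i hi => ?_⟩
        simpa [Function.update_of_ne hi.1] using h i hi.2
      · rintro ⟨h1, h2⟩ i hi
        by_cases hie : i = e
        · subst hie; simpa using h1
        · simpa [Function.update_of_ne hie] using h2 i ⟨hie, hi⟩
    rw [hpre, Measure.prod_prod, Measure.infinitePi_pi μ (fun i _ => ht i),
      Finset.mul_prod_erase s (fun i => μ i (t i)) hes]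
  · have hpre : (fun p : X e × (∀ i, X i) => Function.update p.2 e p.1) ⁻¹' (Set.pi s t)
        = Set.univ ×ˢ (Set.pi s t) := by
      ext ⟨x, J⟩
      simp only [mem_preimage, Set.mem_pi, mem_prod, Finset.mem_coe, mem_univ, true_and]
      refine forall₂_congr fun i hi => ?_
      have hie : i ≠ e := fun h => hes (h ▸ hi)
      simp [Function.update_of_ne hie]
    rw [hpre, Measure.prod_prod, Measure.infinitePi_pi μ (fun i _ => ht i)]
    simp

lemma infinitePi_apply_resample (e : ι) {S : Set (∀ i, X i)} (hS : MeasurableSet S) :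
    Measure.infinitePi μ S
      = ∫⁻ J, μ e {x | Function.update J e x ∈ S} ∂(Measure.infinitePi μ) := by
  have hmeas : Measurable (fun p : X e × (∀ i, X i) => Function.update p.2 e p.1) := by
    refine measurable_pi_iff.2 fun i => ?_
    by_cases h : i = e
    · subst h; simpa using measurable_fst
    · simp only [Function.update_of_ne h]
      exact (measurable_pi_apply i).comp measurable_snd
  conv_lhs => rw [← map_update_prod μ e]
  rw [Measure.map_apply hmeas hS, Measure.prod_apply_symm (hmeas hS)]
  rfl

/-- If for almost every `J` the section in the coordinate `e` is null, the set is null. -/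
lemma infinitePi_null_of_section (e : ι) {S : Set (∀ i, X i)} (hS : MeasurableSet S)
    (h : ∀ᵐ J ∂(Measure.infinitePi μ), μ e {x | Function.update J e x ∈ S} = 0) :
    Measure.infinitePi μ S = 0 := by
  rw [infinitePi_apply_resample μ e hS, lintegral_congr_ae h]
  simp

end resample

section model

variable {V E : Type*} (a b : E → V)

/-- Edges with exactly one endpoint in `A`. -/
def bdSet (A : Set V) : Set E := {e | (a e ∈ A ∧ b e ∉ A) ∨ (a e ∉ A ∧ b e ∈ A)}

variable (hlf : ∀ v, {e | a e = v ∨ b e = v}.Finite)

include hlf in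
lemma bdSet_finite (A : Finset V) : (bdSet a b (A : Set V)).Finite := by
  have : bdSet a b (A : Set V) ⊆ ⋃ v ∈ A, {e | a e = v ∨ b e = v} := by
    intro e he
    simp only [mem_iUnion]
    rcases he with ⟨h1, _⟩ | ⟨_, h1⟩
    · exact ⟨a e, h1, Or.inl rfl⟩
    · exact ⟨b e, h1, Or.inr rfl⟩
  exact (A.finite_toSet.biUnion fun v _ => hlf v).subset this

/-- The edge boundary as a finset. -/
noncomputable def bd (A : Finset V) : Finset E := (bdSet_finite a b hlf A).toFinset

lemma mem_bd {A : Finset V} {e : E} :
    e ∈ bd a b hlf A ↔ (a e ∈ A ∧ b e ∉ A) ∨ (a e ∉ A ∧ b e ∈ A) := by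
  simp [bd, bdSet]

/-- Half the energy cost of flipping the finite set `A` in the configuration `σ`. -/
noncomputable def En (J : E → ℝ) (σ : V → Bool) (A : Finset V) : ℝ :=
  ∑ e ∈ bd a b hlf A, J e * (sp (σ (a e)) * sp (σ (b e)))

/-- weak ground states -/
def WGS (J : E → ℝ) (σ : V → Bool) : Prop := ∀ A : Finset V, 0 ≤ En a b hlf J σ A

lemma continuous_En (A : Finset V) :
    Continuous (fun p : (E → ℝ) × (V → Bool) => En a b hlf p.1 p.2 A) := by
  unfold En
  refine continuous_finsetSum _ fun e _ => ?_
  have hsp : Continuous sp := continuous_of_discreteTopology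
  refine Continuous.mul ((continuous_apply e).comp continuous_fst) ?_
  exact (hsp.comp ((continuous_apply (a e)).comp continuous_snd)).mul
    (hsp.comp ((continuous_apply (b e)).comp continuous_snd))

lemma isClosed_WGS : IsClosed {p : (E → ℝ) × (V → Bool) | WGS a b hlf p.1 p.2} := by
  have : {p : (E → ℝ) × (V → Bool) | WGS a b hlf p.1 p.2}
      = ⋂ A : Finset V, {p | 0 ≤ En a b hlf p.1 p.2 A} := by
    ext p; simp [WGS]
  rw [this]
  exact isClosed_iInter fun A => isClosed_le continuous_const (continuous_En a b hlf A)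

lemma isClosed_WGS_fixed (J : E → ℝ) : IsClosed {σ : V → Bool | WGS a b hlf J σ} :=
  (isClosed_WGS a b hlf).preimage (Continuous.prodMk_right J)

/-- The status of edge `e` in `σ`. -/
def status (σ : V → Bool) (e : E) : Bool := σ (a e) == σ (b e)

lemma sp_mul_sp_eq (σ : V → Bool) (e : E) :
    sp (σ (a e)) * sp (σ (b e)) = sp (status a b σ e) := by
  unfold status
  cases σ (a e) <;> cases σ (b e) <;> simp [sp]

/-- The set of couplings for which there is a weak ground state in which the edge `e` has
status `s`. -/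
def SS (e : E) (s : Bool) : Set (E → ℝ) := {J | ∃ σ, WGS a b hlf J σ ∧ status a b σ e = s}

lemma isClosed_SS (e : E) (s : Bool) : IsClosed (SS a b hlf e s) := by
  have h1 : IsClosed {p : (E → ℝ) × (V → Bool) | WGS a b hlf p.1 p.2 ∧ status a b p.2 e = s} := by
    refine (isClosed_WGS a b hlf).inter ?_
    have hc : Continuous (fun p : (E → ℝ) × (V → Bool) => status a b p.2 e) := by
      unfold status
      have h2 : Continuous (fun q : Bool × Bool => (q.1 == q.2)) := continuous_of_discreteTopology
      have h3 : Continuous (fun p : (E → ℝ) × (V → Bool) => (p.2 (a e), p.2 (b e))) := by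
        fun_prop
      exact h2.comp h3
    exact isClosed_eq hc continuous_const
  have h2 : SS a b hlf e s = Prod.fst ''
      {p : (E → ℝ) × (V → Bool) | WGS a b hlf p.1 p.2 ∧ status a b p.2 e = s} := by
    ext J; simp [SS]
  rw [h2]
  exact isClosedMap_fst_of_compactSpace _ h1


/-! ### The exchange inequality -/

lemma En_add_le (J : E → ℝ) (σ τ : V → Bool) (B : Finset V) :
    En a b hlf J σ (B.filter fun v => σ v ≠ τ v) + En a b hlf J τ (B.filter fun v => σ v ≠ τ v)
      ≤ 2 * ∑ e ∈ bd a b hlf B, |J e| := by
  classical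
  set A := B.filter fun v => σ v ≠ τ v with hA
  unfold En
  rw [← Finset.sum_add_distrib]
  have h1 : ∀ e ∈ bd a b hlf A, J e * (sp (σ (a e)) * sp (σ (b e)))
      + J e * (sp (τ (a e)) * sp (τ (b e))) ≤ if e ∈ bd a b hlf B then 2 * |J e| else 0 := by
    intro e he
    split_ifs with heB
    · have h2 : |sp (σ (a e)) * sp (σ (b e))| = 1 := by rw [abs_mul, abs_sp, abs_sp, mul_one]
      have h3 : |sp (τ (a e)) * sp (τ (b e))| = 1 := by rw [abs_mul, abs_sp, abs_sp, mul_one]
      calc _ ≤ |J e * (sp (σ (a e)) * sp (σ (b e)))| + |J e * (sp (τ (a e)) * sp (τ (b e)))| :=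
            add_le_add (le_abs_self _) (le_abs_self _)
        _ = 2 * |J e| := by rw [abs_mul (J e), abs_mul (J e), h2, h3]; ring
    · -- both endpoints in B or none; one in A so both in B
      rw [mem_bd] at he heB
      simp only [hA, Finset.mem_filter] at he
      push Not at heB
      have key : sp (σ (a e)) * sp (σ (b e)) = - (sp (τ (a e)) * sp (τ (b e))) := by
        rcases he with ⟨⟨h4, h5⟩, h6⟩ | ⟨h6, h4, h5⟩
        · have h7 : b e ∈ B := heB.1 h4
          have h8 : σ (b e) = τ (b e) := by
            by_contra h; exact h6 ⟨h7, h⟩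
          have h9 : σ (a e) = !(τ (a e)) := by
            cases hx : σ (a e) <;> cases hy : τ (a e) <;> simp_all
          rw [h8, h9, sp_not]; ring
        · have h7 : a e ∈ B := by
            by_contra h; exact heB.2 h h4
          have h8 : σ (a e) = τ (a e) := by
            by_contra h; exact h6 ⟨h7, h⟩
          have h9 : σ (b e) = !(τ (b e)) := by
            cases hx : σ (b e) <;> cases hy : τ (b e) <;> simp_all
          rw [h8, h9, sp_not]; ring
      rw [key]; ring_nf; exact le_rfl
  refine (Finset.sum_le_sum h1).trans ?_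
  rw [Finset.mul_sum, ← Finset.sum_filter]
  refine Finset.sum_le_sum_of_subset_of_nonneg ?_ fun e _ _ => by positivity
  intro e he
  exact (Finset.mem_filter.1 he).2

/-- Energies after changing one coupling. -/
lemma En_update [DecidableEq E] (J : E → ℝ) (e : E) (x : ℝ) (σ : V → Bool) (A : Finset V) :
    En a b hlf (Function.update J e x) σ A
      = En a b hlf J σ A + (if e ∈ bd a b hlf A then
          (x - J e) * (sp (σ (a e)) * sp (σ (b e))) else 0) := by
  unfold En
  split_ifs with he
  · rw [← Finset.add_sum_erase _ _ he, ← Finset.add_sum_erase _ _ he]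
    have : ∑ x_1 ∈ (bd a b hlf A).erase e, update J e x x_1 * (sp (σ (a x_1)) * sp (σ (b x_1)))
        = ∑ x_1 ∈ (bd a b hlf A).erase e, J x_1 * (sp (σ (a x_1)) * sp (σ (b x_1))) := by
      refine Finset.sum_congr rfl fun f hf => ?_
      rw [Function.update_of_ne (Finset.ne_of_mem_erase hf)]
    rw [this, Function.update_self]; ring
  · rw [add_zero]
    refine Finset.sum_congr rfl fun f hf => ?_
    rw [Function.update_of_ne]
    rintro rfl; exact he hf

/-- The window lemma: if the couplings have cutsets of arbitrarily small strength, then the set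
of values of `J e` for which both statuses of `e` are realised by weak ground states has at most
one element. -/
lemma window_subsingleton [DecidableEq E] (J : E → ℝ) (e : E)
    (hcut : ∀ F : Finset V, ∀ ε > (0:ℝ), ∃ B : Finset V, F ⊆ B ∧ ∑ f ∈ bd a b hlf B, |J f| < ε) :
    {x : ℝ | Function.update J e x ∈ SS a b hlf e true ∩ SS a b hlf e false}.Subsingleton := by
  classical
  -- it suffices to derive a contradiction from `x < x'`
  have main : ∀ x x' : ℝ, x < x' → Function.update J e x ∈ SS a b hlf e true →
      Function.update J e x' ∈ SS a b hlf e false → False := by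
    rintro x x' hxx ⟨σ, hσ, hσs⟩ ⟨τ, hτ, hτs⟩
    obtain ⟨B, hFB, hB⟩ := hcut {a e, b e} ((x' - x) / 2) (by linarith)
    have haB : a e ∈ B := hFB (by simp)
    have hbB : b e ∈ B := hFB (by simp)
    have heB : e ∉ bd a b hlf B := by
      rw [mem_bd]; push Not; exact ⟨fun _ => hbB, fun h => absurd haB h⟩
    set A := B.filter fun v => σ v ≠ τ v with hA
    have heA : e ∈ bd a b hlf A := by
      rw [mem_bd]
      simp only [hA, Finset.mem_filter, haB, hbB, true_and, ne_eq, not_not]
      unfold status at hσs hτs
      cases h1 : σ (a e) <;> cases h2 : σ (b e) <;> cases h3 : τ (a e) <;> cases h4 : τ (b e) <;>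
        simp_all
    -- energies at J' = update J e x'
    set J' := Function.update J e x' with hJ'
    have h1 : x' - x ≤ En a b hlf J' σ A := by
      have h2 : J' = Function.update (Function.update J e x) e x' := by
        rw [hJ', Function.update_idem]
      rw [h2, En_update, if_pos heA, Function.update_self, sp_mul_sp_eq, hσs]
      have := hσ A
      simp only [sp, if_true, mul_one]
      linarith
    have h2 : 0 ≤ En a b hlf J' τ A := hτ A
    have h3 := En_add_le a b hlf J' σ τ B
    have h4 : ∑ f ∈ bd a b hlf B, |J' f| = ∑ f ∈ bd a b hlf B, |J f| := by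
      refine Finset.sum_congr rfl fun f hf => ?_
      rw [hJ', Function.update_of_ne]
      rintro rfl; exact heB hf
    rw [h4] at h3
    linarith
  intro x hx x' hx'
  rcases lt_trichotomy x x' with h | h | h
  · exact (main x x' h hx.1 hx'.2).elim
  · exact h
  · exact (main x' x h hx'.1 hx.2).elim


/-! ### Existence of weak ground states -/

/-- flip the spins in `A` -/
noncomputable def flip (σ : V → Bool) (A : Finset V) : V → Bool := by
  classical exact fun v => if v ∈ A then !(σ v) else σ v

lemma sp_flip_bd (σ : V → Bool) (A : Finset V) (e : E) (he : e ∈ bd a b hlf A) :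
    sp (flip σ A (a e)) * sp (flip σ A (b e)) = - (sp (σ (a e)) * sp (σ (b e))) := by
  rw [mem_bd] at he
  unfold flip
  rcases he with ⟨h1, h2⟩ | ⟨h1, h2⟩
  · simp [h1, h2, sp_not]
  · simp [h1, h2, sp_not]

lemma sp_flip_not_bd (σ : V → Bool) (A : Finset V) (e : E) (he : e ∉ bd a b hlf A) :
    sp (flip σ A (a e)) * sp (flip σ A (b e)) = sp (σ (a e)) * sp (σ (b e)) := by
  rw [mem_bd] at he
  push Not at he
  unfold flip
  by_cases h1 : a e ∈ A
  · simp [h1, he.1 h1, sp_not]
  · simp [h1, he.2 h1]

lemma exists_WGS_on (J : E → ℝ) (Λ : Finset V) :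
    ∃ σ : V → Bool, ∀ A ⊆ Λ, 0 ≤ En a b hlf J σ A := by
  classical
  -- touched edges
  let tch : Finset E := Λ.biUnion fun v => (hlf v).toFinset
  let c : (Λ → Bool) → (V → Bool) := fun s v => if h : v ∈ Λ then s ⟨v, h⟩ else true
  let H : (Λ → Bool) → ℝ := fun s => - ∑ e ∈ tch, J e * (sp (c s (a e)) * sp (c s (b e)))
  obtain ⟨s, -, hs⟩ := Finset.exists_min_image (Finset.univ : Finset (Λ → Bool)) H
    Finset.univ_nonempty
  refine ⟨c s, fun A hA => ?_⟩
  let s' : Λ → Bool := fun v => if (v : V) ∈ A then !(s v) else s v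
  have hc : c s' = flip (c s) A := by
    funext v
    unfold flip
    by_cases hv : v ∈ Λ
    · simp only [c, s', hv, dif_pos]
    · have : v ∉ A := fun h => hv (hA h)
      simp only [c, hv, this, dif_neg, not_false_iff, if_false]
  have hle := hs s' (Finset.mem_univ _)
  have hsub : bd a b hlf A ⊆ tch := by
    intro e he
    rw [mem_bd] at he
    simp only [tch, Finset.mem_biUnion, Finite.mem_toFinset, mem_ofPred_eq]
    rcases he with ⟨h1, _⟩ | ⟨_, h1⟩
    · exact ⟨a e, hA h1, Or.inl rfl⟩
    · exact ⟨b e, hA h1, Or.inr rfl⟩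
  have hdiff : H s' - H s = 2 * En a b hlf J (c s) A := by
    simp only [H, hc]
    have h1 : ∑ e ∈ tch, J e * (sp (flip (c s) A (a e)) * sp (flip (c s) A (b e)))
        = ∑ e ∈ tch, (J e * (sp (c s (a e)) * sp (c s (b e)))
          - if e ∈ bd a b hlf A then 2 * (J e * (sp (c s (a e)) * sp (c s (b e)))) else 0) := by
      refine Finset.sum_congr rfl fun e _ => ?_
      split_ifs with he
      · rw [sp_flip_bd a b hlf _ _ _ he]; ring
      · rw [sp_flip_not_bd a b hlf _ _ _ he]; ring
    rw [h1, Finset.sum_sub_distrib, ← Finset.sum_filter,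
      Finset.filter_mem_eq_inter, Finset.inter_eq_right.2 hsub]
    unfold En
    rw [← Finset.mul_sum]
    ring
  linarith

lemma exists_WGS (J : E → ℝ) : ∃ σ : V → Bool, WGS a b hlf J σ := by
  classical
  let K : Finset V → Set (V → Bool) := fun Λ => {σ | ∀ A ⊆ Λ, 0 ≤ En a b hlf J σ A}
  have hclosed : ∀ Λ, IsClosed (K Λ) := by
    intro Λ
    have : K Λ = ⋂ A ∈ Λ.powerset, {σ | 0 ≤ En a b hlf J σ A} := by
      ext σ; simp [K]
    rw [this]
    refine isClosed_biInter fun A _ => ?_
    exact isClosed_le continuous_const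
      ((continuous_En a b hlf A).comp (Continuous.prodMk_right J))
  have hne : (⋂ Λ, K Λ).Nonempty := by
    refine IsCompact.nonempty_iInter_of_directed_nonempty_isCompact_isClosed K ?_ ?_ ?_ hclosed
    · intro Λ Λ'
      refine ⟨Λ ∪ Λ', fun σ hσ A hA => hσ A (hA.trans Finset.subset_union_left),
        fun σ hσ A hA => hσ A (hA.trans Finset.subset_union_right)⟩
    · intro Λ
      obtain ⟨σ, hσ⟩ := exists_WGS_on a b hlf J Λ
      exact ⟨σ, hσ⟩
    · intro Λ
      exact (hclosed Λ).isCompact
  obtain ⟨σ, hσ⟩ := hne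
  refine ⟨σ, fun A => ?_⟩
  exact (mem_iInter.1 hσ A) A (Finset.Subset.refl A)

/-! ### No ties -/

lemma null_tie [DecidableEq E] (μ : E → Measure ℝ) [∀ e, IsProbabilityMeasure (μ e)]
    [∀ e, NullSingletonClass (μ e)] (S P : Finset E) (hS : S.Nonempty) :
    Measure.infinitePi μ {J | ∑ e ∈ S, J e * (if e ∈ P then 1 else -1) = (0:ℝ)} = 0 := by
  obtain ⟨e, he⟩ := hS
  have hmeas : MeasurableSet {J : E → ℝ | ∑ e ∈ S, J e * (if e ∈ P then 1 else -1) = (0:ℝ)} := by
    refine measurableSet_eq_fun ?_ measurable_const
    fun_prop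
  refine infinitePi_null_of_section μ e hmeas (Filter.Eventually.of_forall fun J => ?_)
  have hsub : {x : ℝ | Function.update J e x ∈
      {J : E → ℝ | ∑ e ∈ S, J e * (if e ∈ P then 1 else -1) = (0:ℝ)}}.Subsingleton := by
    intro x hx y hy
    simp only [mem_ofPred_eq] at hx hy
    rw [← Finset.add_sum_erase _ _ he] at hx hy
    have h1 : ∀ z : ℝ, ∑ f ∈ S.erase e, Function.update J e z f * (if f ∈ P then (1:ℝ) else -1)
        = ∑ f ∈ S.erase e, J f * (if f ∈ P then (1:ℝ) else -1) := by
      intro z
      refine Finset.sum_congr rfl fun f hf => ?_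
      rw [Function.update_of_ne (Finset.ne_of_mem_erase hf)]
    rw [h1, Function.update_self] at hx hy
    split_ifs at hx hy <;> linarith
  exact hsub.measure_zero _

/-- no ties: no finite set with nonempty boundary has zero flip energy -/
def NoTie (J : E → ℝ) : Prop :=
  ∀ (A : Finset V) (σ : V → Bool), (bd a b hlf A).Nonempty → En a b hlf J σ A ≠ 0

lemma ae_noTie [Countable E] (μ : E → Measure ℝ) [∀ e, IsProbabilityMeasure (μ e)]
    [∀ e, NullSingletonClass (μ e)] :
    ∀ᵐ J ∂(Measure.infinitePi μ), NoTie a b hlf J := by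
  classical
  have h : ∀ᵐ J ∂(Measure.infinitePi μ), ∀ S P : Finset E, S.Nonempty →
      ∑ e ∈ S, J e * (if e ∈ P then 1 else -1) ≠ (0:ℝ) := by
    rw [ae_all_iff]; intro S
    rw [ae_all_iff]; intro P
    by_cases hS : S.Nonempty
    · have := null_tie μ S P hS
      rw [ae_iff]
      simpa [hS] using this
    · simp [hS]
  filter_upwards [h] with J hJ A σ hA h0
  refine hJ (bd a b hlf A) ((bd a b hlf A).filter fun e => status a b σ e = true) hA ?_
  rw [← h0]
  unfold En
  refine Finset.sum_congr rfl fun e he => ?_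
  rw [sp_mul_sp_eq]
  by_cases hs : status a b σ e = true
  · simp [he, hs, sp]
  · simp [he, hs, sp]

end model

end Pool.Agent.Helper23.EA
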