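import Mathlib
import Pool.Agent.Helper23.EABasic

set_option autoImplicit false
open MeasureTheory Set Function
open scoped ENNReal

namespace Pool.Agent.Helper23.EA

section graph

variable {V : Type*} (G : SimpleGraph V)

/-- first endpoint of an edge -/
noncomputable def ea (e : G.edgeSet) : V := (Quot.out (e : Sym2 V)).1
/-- second endpoint of an edge -/
noncomputable def eb (e : G.edgeSet) : V := (Quot.out (e : Sym2 V)).2

lemma edge_eq (e : G.edgeSet) : (e : Sym2 V) = s(ea G e, eb G e) := by
  unfold ea eb
  have h := Quot.out_eq (e : Sym2 V)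
  conv_lhs => rw [← h]

lemma edge_adj (e : G.edgeSet) : G.Adj (ea G e) (eb G e) := by
  have h := e.2
  rw [edge_eq G e] at h
  exact h

lemma map_mul (e : G.edgeSet) (σ : V → ℝ) :
    ((e : Sym2 V).map σ).mul = σ (ea G e) * σ (eb G e) := by
  rw [edge_eq G e]; rfl

lemma graph_lf (hlf : ∀ x, (G.neighborSet x).Finite) (v : V) :
    {e : G.edgeSet | ea G e = v ∨ eb G e = v}.Finite := by
  have hfin : (Subtype.val '' {e : G.edgeSet | ea G e = v ∨ eb G e = v}).Finite := by
    refine ((hlf v).image fun w => s(v, w)).subset ?_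
    rintro _ ⟨e, he, rfl⟩
    rcases he with h | h
    · refine ⟨eb G e, ?_, ?_⟩
      · have := edge_adj G e; rw [h] at this; exact this
      · rw [edge_eq G e, h]
    · refine ⟨ea G e, ?_, ?_⟩
      · have := edge_adj G e; rw [h] at this; exact this.symm
      · rw [edge_eq G e, h, Sym2.eq_swap]
  exact hfin.of_finite_image Subtype.val_injective.injOn

variable {G}

/-- Every spin configuration with values `±1` comes from a Boolean one. -/
lemma exists_bool (σ : V → ℝ) (h : ∀ x, σ x = 1 ∨ σ x = -1) : ∃ s : V → Bool, σ = sp ∘ s := by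
  classical
  refine ⟨fun x => decide (σ x = 1), ?_⟩
  funext x
  rcases h x with h | h
  · simp [h, sp]
  · have : ¬ ((-1 : ℝ) = 1) := by norm_num
    simp [h, sp, this]

variable (hlf : ∀ v, {e : G.edgeSet | ea G e = v ∨ eb G e = v}.Finite)

/-- The flip energy in the form of a `finsum`. -/
lemma finsum_flip (J : G.edgeSet → ℝ) (s : V → Bool) (A : Finset V) :
    (∑ᶠ e : G.edgeSet, J e * (((e : Sym2 V).map (sp ∘ s)).mul
      - ((e : Sym2 V).map (sp ∘ (flip s A))).mul))
      = 2 * En (ea G) (eb G) hlf J s A := by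
  classical
  rw [finsum_eq_sum_of_support_subset (s := bd (ea G) (eb G) hlf A)]
  · unfold En
    rw [Finset.mul_sum]
    refine Finset.sum_congr rfl fun e he => ?_
    rw [map_mul, map_mul]
    simp only [Function.comp]
    rw [sp_flip_bd (ea G) (eb G) hlf _ _ _ he]
    ring
  · intro e he
    by_contra hne
    apply he
    show J e * (((e : Sym2 V).map (sp ∘ s)).mul - ((e : Sym2 V).map (sp ∘ (flip s A))).mul) = 0
    rw [map_mul, map_mul]
    simp only [Function.comp]
    rw [sp_flip_not_bd (ea G) (eb G) hlf _ _ _ hne]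
    ring

lemma flip_ne (s : V → Bool) (A : Finset V) (hA : A.Nonempty) : sp ∘ (flip s A) ≠ sp ∘ s := by
  classical
  obtain ⟨v, hv⟩ := hA
  intro h
  have h1 := sp_injective (congrFun h v)
  simp [flip, hv] at h1

lemma flip_diff_finite (s : V → Bool) (A : Finset V) :
    {x | (sp ∘ (flip s A)) x ≠ (sp ∘ s) x}.Finite := by
  classical
  refine A.finite_toSet.subset fun x hx => ?_
  by_contra h
  apply hx
  have h' : x ∉ A := h
  simp [flip, h']

/-- ground states in terms of flip energies -/
lemma groundState_iff (J : G.edgeSet → ℝ) (s : V → Bool) :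
    (∀ σ' : V → ℝ, (∀ x, σ' x = 1 ∨ σ' x = -1) → {x | σ' x ≠ (sp ∘ s) x}.Finite →
      σ' ≠ sp ∘ s →
      0 < ∑ᶠ e : G.edgeSet, J e * (((e : Sym2 V).map (sp ∘ s)).mul - ((e : Sym2 V).map σ').mul))
    ↔ ∀ A : Finset V, A.Nonempty → 0 < En (ea G) (eb G) hlf J s A := by
  classical
  constructor
  · intro h A hA
    have := h (sp ∘ (flip s A)) (fun x => sp_eq_or _) (flip_diff_finite s A) (flip_ne s A hA)
    rw [finsum_flip hlf] at this
    linarith
  · intro h σ' hσ' hfin hne
    obtain ⟨t, rfl⟩ := exists_bool σ' hσ'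
    set A : Finset V := hfin.toFinset with hA
    have ht : t = flip s A := by
      funext x
      unfold flip
      by_cases hx : x ∈ A
      · have hx' : (sp ∘ t) x ≠ (sp ∘ s) x := by simpa [hA] using hx
        have : t x ≠ s x := fun h => hx' (by simp [h])
        simp only [hx, if_true]
        cases h1 : t x <;> cases h2 : s x <;> simp_all
      · have hx' : (sp ∘ t) x = (sp ∘ s) x := by
          by_contra hc; exact hx (by simpa [hA] using hc)
        simp only [hx, if_false]
        exact sp_injective hx'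
    rw [ht, finsum_flip hlf]
    have hAne : A.Nonempty := by
      rw [Finset.nonempty_iff_ne_empty]
      intro h0
      apply hne
      rw [ht, h0]
      funext x; simp [flip]
    have := h A hAne
    linarith

/-- Two configurations with the same status on every edge of a connected graph agree up to a
global flip. -/
lemma eq_or_eq_not (hG : G.Connected) (s t : V → Bool)
    (h : ∀ e, status (ea G) (eb G) s e = status (ea G) (eb G) t e) :
    t = s ∨ t = fun v => !(s v) := by
  classical
  have hadj : ∀ x y, G.Adj x y → ((s x == s y) = (t x == t y)) := by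
    intro x y hxy
    have he := h ⟨s(x, y), hxy⟩
    have heq := edge_eq G ⟨s(x, y), hxy⟩
    unfold status at he
    simp only [Sym2.eq_iff] at heq
    rcases heq with ⟨h1, h2⟩ | ⟨h1, h2⟩
    · rw [← h1, ← h2] at he; exact he
    · rw [← h1, ← h2] at he
      rw [Bool.beq_comm (a := s x), Bool.beq_comm (a := t x)]
      exact he
  have hconst : ∀ x y, G.Reachable x y → ((s x == t x) = (s y == t y)) := by
    intro x y hxy
    obtain ⟨w⟩ := hxy
    induction w with
    | nil => rfl
    | cons hxy' _ ih =>
      rw [← ih]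
      have := hadj _ _ hxy'
      revert this
      generalize s _ = x1
      generalize s _ = x2
      generalize t _ = x3
      generalize t _ = x4
      revert x1 x2 x3 x4
      decide
  obtain ⟨v0⟩ := hG.nonempty
  by_cases h0 : s v0 = t v0
  · left
    funext v
    have := hconst v0 v (hG.preconnected v0 v)
    have h1 : (s v == t v) = true := by rw [← this]; simp [h0]
    exact (beq_iff_eq.1 h1).symm
  · right
    funext v
    have := hconst v0 v (hG.preconnected v0 v)
    have h1 : (s v == t v) = false := by rw [← this]; simp [h0]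
    revert h1
    generalize s v = x1
    generalize t v = x2
    revert x1 x2
    decide

/-- In an infinite connected graph the boundary of a finite nonempty set is nonempty. -/
lemma bd_nonempty [Infinite V] (hG : G.Connected) (A : Finset V) (hA : A.Nonempty) :
    (bd (ea G) (eb G) hlf A).Nonempty := by
  classical
  obtain ⟨u, hu⟩ := hA
  obtain ⟨w, hw⟩ := Infinite.exists_notMem_finset A
  obtain ⟨p⟩ := hG.preconnected u w
  -- find an edge of the walk leaving A
  have key : ∀ (x y : V) (p : G.Walk x y), x ∈ A → y ∉ A → ∃ x' y', G.Adj x' y' ∧ x' ∈ A ∧ y' ∉ A := by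
    intro x y p
    induction p with
    | nil => intro h1 h2; exact absurd h1 h2
    | @cons x z y hxz p ih =>
      intro h1 h2
      by_cases hz : z ∈ A
      · exact ih hz h2
      · exact ⟨x, z, hxz, h1, hz⟩
  obtain ⟨x, y, hxy, hx, hy⟩ := key u w p hu hw
  refine ⟨⟨s(x, y), hxy⟩, ?_⟩
  rw [mem_bd]
  have heq := edge_eq G ⟨s(x, y), hxy⟩
  simp only [Sym2.eq_iff] at heq
  rcases heq with ⟨h1, h2⟩ | ⟨h1, h2⟩
  · left; rw [← h1, ← h2]; exact ⟨hx, hy⟩
  · right; rw [← h1, ← h2]; exact ⟨hy, hx⟩

/-- Deterministic conclusion: if there are no ties and no edge has both statuses realised, there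
is exactly one pair of ground states. -/
lemma pair_of_good [Infinite V] (hG : G.Connected) (J : G.edgeSet → ℝ)
    (hnt : NoTie (ea G) (eb G) hlf J)
    (hss : ∀ s t, WGS (ea G) (eb G) hlf J s → WGS (ea G) (eb G) hlf J t →
      t = s ∨ t = fun v => !(s v)) :
    ∃ σ : V → ℝ, {τ : V → ℝ | (∀ x, τ x = 1 ∨ τ x = -1) ∧
      ∀ σ' : V → ℝ, (∀ x, σ' x = 1 ∨ σ' x = -1) → {x | σ' x ≠ τ x}.Finite → σ' ≠ τ →
        0 < ∑ᶠ e : G.edgeSet, J e * (((e : Sym2 V).map τ).mul - ((e : Sym2 V).map σ').mul)}
      = {σ, -σ} := by
  classical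
  obtain ⟨s, hs⟩ := exists_WGS (ea G) (eb G) hlf J
  have hstrict : ∀ t, WGS (ea G) (eb G) hlf J t → ∀ A : Finset V, A.Nonempty →
      0 < En (ea G) (eb G) hlf J t A := fun t ht A hA =>
    lt_of_le_of_ne (ht A) (Ne.symm (hnt A t (bd_nonempty hlf hG A hA)))
  have hneg : (fun v => sp (!(s v))) = -(sp ∘ s) := by
    funext v; simp [sp_not]
  have hsn : WGS (ea G) (eb G) hlf J (fun v => !(s v)) := by
    intro A
    have : En (ea G) (eb G) hlf J (fun v => !(s v)) A = En (ea G) (eb G) hlf J s A := by
      unfold En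
      refine Finset.sum_congr rfl fun e _ => ?_
      simp only [sp_not]; ring
    rw [this]; exact hs A
  refine ⟨sp ∘ s, ?_⟩
  ext τ
  simp only [mem_ofPred_eq, mem_insert_iff, mem_singleton_iff]
  constructor
  · rintro ⟨h1, h2⟩
    obtain ⟨t, rfl⟩ := exists_bool τ h1
    rw [groundState_iff hlf] at h2
    have ht : WGS (ea G) (eb G) hlf J t := by
      intro A
      by_cases hA : A.Nonempty
      · exact (h2 A hA).le
      · rw [Finset.not_nonempty_iff_eq_empty] at hA
        subst hA
        have : bd (ea G) (eb G) hlf (∅ : Finset V) = ∅ := by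
          ext e; rw [mem_bd]; simp
        simp [En, this]
    rcases hss s t hs ht with h | h
    · left; rw [h]
    · right; rw [h, ← hneg]; rfl
  · rintro (h | h)
    · subst h
      exact ⟨fun x => sp_eq_or _, (groundState_iff hlf J s).2 (hstrict s hs)⟩
    · subst h
      rw [← hneg]
      exact ⟨fun x => sp_eq_or _, (groundState_iff hlf J (fun v => !(s v))).2 (hstrict _ hsn)⟩

end graph

end Pool.Agent.Helper23.EA
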