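import Mathlib
import Pool.Agent.Helper23.EAGraph

set_option autoImplicit false
open MeasureTheory Set Function
open scoped ENNReal

namespace Pool.Agent.Helper23.EA

section general

variable {V E : Type*} (a b : E → V) (hlf : ∀ v, {e | a e = v ∨ b e = v}.Finite)

/-- If two weak ground states agree on the outer boundary of a finite set, they agree inside. -/
lemma eq_on_of_eq_bd (hne : ∀ A : Finset V, A.Nonempty → (bd a b hlf A).Nonempty)
    (J : E → ℝ) (hnt : NoTie a b hlf J) (s t : V → Bool)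
    (hs : WGS a b hlf J s) (ht : WGS a b hlf J t) (B : Finset V)
    (hb : ∀ e ∈ bd a b hlf B, (a e ∉ B → s (a e) = t (a e)) ∧ (b e ∉ B → s (b e) = t (b e))) :
    ∀ v ∈ B, s v = t v := by
  classical
  set A := B.filter fun v => s v ≠ t v with hA
  by_contra hcon
  push Not at hcon
  obtain ⟨v, hvB, hv⟩ := hcon
  have hAne : A.Nonempty := ⟨v, by simp [hA, hvB, hv]⟩
  have hopp : En a b hlf J t A = - En a b hlf J s A := by
    unfold En
    rw [← Finset.sum_neg_distrib]
    refine Finset.sum_congr rfl fun e he => ?_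
    rw [mem_bd] at he
    have hB : e ∈ bd a b hlf B ∨ (a e ∈ B ∧ b e ∈ B) := by
      rw [mem_bd]
      simp only [hA, Finset.mem_filter] at he
      by_cases h1 : a e ∈ B <;> by_cases h2 : b e ∈ B <;> simp_all
    have houtb : a e ∈ A → b e ∉ A → s (b e) = t (b e) := by
      intro h1 h2
      by_cases h3 : b e ∈ B
      · by_contra h4; exact h2 (by simp [hA, h3, h4])
      · rcases hB with hB | hB
        · exact (hb e hB).2 h3
        · exact absurd hB.2 h3
    have houta : b e ∈ A → a e ∉ A → s (a e) = t (a e) := by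
      intro h1 h2
      by_cases h3 : a e ∈ B
      · by_contra h4; exact h2 (by simp [hA, h3, h4])
      · rcases hB with hB | hB
        · exact (hb e hB).1 h3
        · exact absurd hB.1 h3
    have hin : ∀ w, w ∈ A → t w = !(s w) := by
      intro w hw
      have : s w ≠ t w := by simpa [hA] using (Finset.mem_filter.1 hw).2
      revert this; generalize s w = x; generalize t w = y; revert x y; decide
    rcases he with ⟨h1, h2⟩ | ⟨h1, h2⟩
    · rw [hin _ h1, houtb h1 h2, sp_not]; ring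
    · rw [hin _ h2, houta h2 h1, sp_not]; ring
  have h1 := hs A
  have h2 := ht A
  rw [hopp] at h2
  exact hnt A s (hne A hAne) (by linarith)

lemma En_not (J : E → ℝ) (s : V → Bool) (A : Finset V) :
    En a b hlf J (fun v => !(s v)) A = En a b hlf J s A := by
  unfold En
  refine Finset.sum_congr rfl fun e _ => ?_
  simp only [sp_not]; ring

lemma WGS_not {J : E → ℝ} {s : V → Bool} (hs : WGS a b hlf J s) :
    WGS a b hlf J (fun v => !(s v)) := by
  intro A; rw [En_not]; exact hs A

end general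

section covariance

variable {V : Type*} {G : SimpleGraph V}
  (hlf : ∀ v, {e : G.edgeSet | ea G e = v ∨ eb G e = v}.Finite)

lemma mem_bd_iff (A : Finset V) (e : G.edgeSet) :
    e ∈ bd (ea G) (eb G) hlf A ↔ ∃ x ∈ A, ∃ y, y ∉ A ∧ (e : Sym2 V) = s(x, y) := by
  rw [mem_bd]
  constructor
  · rintro (⟨h1, h2⟩ | ⟨h1, h2⟩)
    · exact ⟨_, h1, _, h2, edge_eq G e⟩
    · exact ⟨_, h2, _, h1, by rw [edge_eq G e, Sym2.eq_swap]⟩
  · rintro ⟨x, hx, y, hy, he⟩
    rw [edge_eq G e, Sym2.eq_iff] at he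
    rcases he with ⟨h1, h2⟩ | ⟨h1, h2⟩
    · left; rw [h1, h2]; exact ⟨hx, hy⟩
    · right; rw [h1, h2]; exact ⟨hy, hx⟩

lemma En_eq (J : G.edgeSet → ℝ) (s : V → Bool) (A : Finset V) :
    En (ea G) (eb G) hlf J s A
      = ∑ e ∈ bd (ea G) (eb G) hlf A, J e * ((e : Sym2 V).map (sp ∘ s)).mul := by
  unfold En
  refine Finset.sum_congr rfl fun e _ => ?_
  rw [map_mul]; rfl

/-- covariance of the flip energy under graph automorphisms -/
lemma En_comp (φ : G ≃g G) (J : G.edgeSet → ℝ) (s : V → Bool) (A : Finset V) :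
    En (ea G) (eb G) hlf (fun e => J (φ.mapEdgeSet e)) (fun v => s (φ v)) A
      = En (ea G) (eb G) hlf J s (A.map φ.toEquiv.toEmbedding) := by
  classical
  rw [En_eq, En_eq]
  refine Finset.sum_bij (fun e _ => φ.mapEdgeSet e) ?_ ?_ ?_ ?_
  · intro e he
    rw [mem_bd_iff] at he ⊢
    obtain ⟨x, hx, y, hy, h⟩ := he
    refine ⟨φ x, Finset.mem_map.2 ⟨x, hx, rfl⟩, φ y, ?_, ?_⟩
    · intro h'
      obtain ⟨y', hy', h''⟩ := Finset.mem_map.1 h'
      exact hy (φ.injective h'' ▸ hy')
    show Sym2.map φ (e : Sym2 V) = _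
    rw [h]; rfl
  · intro e _ f _ h
    exact φ.mapEdgeSet.injective h
  · intro f hf
    rw [mem_bd_iff] at hf
    obtain ⟨x, hx, y, hy, h⟩ := hf
    refine ⟨φ.mapEdgeSet.symm f, ?_, φ.mapEdgeSet.apply_symm_apply f⟩
    rw [mem_bd_iff]
    rw [Finset.mem_map] at hx
    obtain ⟨x', hx', rfl⟩ := hx
    refine ⟨x', hx', φ.symm y, ?_, ?_⟩
    · intro hy'
      apply hy
      rw [Finset.mem_map]
      exact ⟨φ.symm y, hy', by simp⟩
    · show Sym2.map φ.symm (f : Sym2 V) = _
      rw [h]
      simp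
  · intro e _
    congr 1
    show ((e : Sym2 V).map (sp ∘ fun v => s (φ v))).mul = ((Sym2.map φ (e : Sym2 V)).map (sp ∘ s)).mul
    rw [Sym2.map_map]
    rfl

lemma WGS_comp (φ : G ≃g G) {J : G.edgeSet → ℝ} {s : V → Bool}
    (h : WGS (ea G) (eb G) hlf J s) :
    WGS (ea G) (eb G) hlf (fun e => J (φ.mapEdgeSet e)) (fun v => s (φ v)) := by
  intro A; rw [En_comp]; exact h _

lemma measurePreserving_edge (φ : G ≃g G) (μ : Measure ℝ) [IsProbabilityMeasure μ] :
    MeasurePreserving (fun (J : G.edgeSet → ℝ) => fun e => J (φ.mapEdgeSet e))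
      (Measure.infinitePi fun _ : G.edgeSet => μ) (Measure.infinitePi fun _ : G.edgeSet => μ) := by
  refine ⟨by fun_prop, ?_⟩
  exact Measure.map_infinitePi_infinitePi_of_inj (P := fun _ : G.edgeSet => μ)
    φ.mapEdgeSet.injective

end covariance

end Pool.Agent.Helper23.EA
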