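import Mathlib
import Pool.Agent.Helper23.EAStrip

set_option autoImplicit false
open MeasureTheory Set Function
open scoped ENNReal

namespace Pool.Agent.Helper23.EA

section strip

variable {W : Type*} [Fintype W] (H : SimpleGraph W)

/-- the strip graph -/
noncomputable abbrev SG : SimpleGraph (ℤ × W) := (SimpleGraph.hasse ℤ).boxProd H

variable {H}

omit [Fintype W] in
lemma sg_adj {x y : ℤ × W} (h : (SG H).Adj x y) :
    (y.1 = x.1 ∧ H.Adj x.2 y.2) ∨ (y.1 = x.1 + 1 ∧ y.2 = x.2) ∨ (x.1 = y.1 + 1 ∧ y.2 = x.2) := by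
  rw [SimpleGraph.boxProd_adj] at h
  rcases h with ⟨h1, h2⟩ | ⟨h1, h2⟩
  · rw [SimpleGraph.hasse_adj] at h1
    rcases h1 with h1 | h1
    · right; left
      rw [Order.covBy_iff_add_one_eq] at h1
      exact ⟨h1.symm, h2.symm⟩
    · right; right
      rw [Order.covBy_iff_add_one_eq] at h1
      exact ⟨h1.symm, h2.symm⟩
  · left; exact ⟨h2.symm, h1⟩

omit [Fintype W] in
lemma sg_adj_h (n : ℤ) (w : W) : (SG H).Adj (n, w) (n + 1, w) := by
  rw [SimpleGraph.boxProd_adj]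
  left
  refine ⟨?_, rfl⟩
  rw [SimpleGraph.hasse_adj]
  left
  exact Order.covBy_iff_add_one_eq.2 rfl

lemma sg_lf (x : ℤ × W) : ((SG H).neighborSet x).Finite := by
  refine (((Set.finite_Icc (x.1 - 1) (x.1 + 1)).prod (Set.finite_univ (α := W)))).subset ?_
  intro y hy
  have h := sg_adj (H := H) hy
  simp only [mem_prod, mem_Icc, mem_univ, and_true]
  rcases h with ⟨h, _⟩ | ⟨h, _⟩ | ⟨h, _⟩ <;> omega

omit [Fintype W] in
lemma sg_connected (hH : H.Connected) : (SG H).Connected := by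
  have : Nonempty ℤ := ⟨0⟩
  exact SimpleGraph.Connected.boxProd ⟨SimpleGraph.hasse_preconnected_of_succ ℤ⟩ hH

/-- translation automorphism -/
noncomputable def shift (c : ℤ) : SG H ≃g SG H where
  toEquiv := (Equiv.addRight c).prodCongr (Equiv.refl W)
  map_rel_iff' := by
    rintro ⟨x1, x2⟩ ⟨y1, y2⟩
    have h : ((SG H).Adj (x1 + c, x2) (y1 + c, y2)) ↔ ((SG H).Adj (x1, x2) (y1, y2)) := by
      rw [SimpleGraph.boxProd_adj, SimpleGraph.boxProd_adj, SimpleGraph.hasse_adj,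
        SimpleGraph.hasse_adj]
      simp only [Order.covBy_iff_add_one_eq]
      constructor
      · rintro (⟨h1 | h1, h2⟩ | ⟨h1, h2⟩)
        · left; exact ⟨Or.inl (by omega), h2⟩
        · left; exact ⟨Or.inr (by omega), h2⟩
        · right; exact ⟨h1, by omega⟩
      · rintro (⟨h1 | h1, h2⟩ | ⟨h1, h2⟩)
        · left; exact ⟨Or.inl (by omega), h2⟩
        · left; exact ⟨Or.inr (by omega), h2⟩
        · right; exact ⟨h1, by omega⟩
    exact h

omit [Fintype W] in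
lemma shift_apply (c n : ℤ) (w : W) : shift (H := H) c (n, w) = (n + c, w) := rfl

variable (hlf : ∀ v, {e : (SG H).edgeSet | ea (SG H) e = v ∨ eb (SG H) e = v}.Finite)

/-- Two weak ground states which agree on two slices agree on all slices in between. -/
lemma slice_sandwich (hH : H.Connected) (J : (SG H).edgeSet → ℝ)
    (hnt : NoTie (ea (SG H)) (eb (SG H)) hlf J) (s t : ℤ × W → Bool)
    (hs : WGS (ea (SG H)) (eb (SG H)) hlf J s) (ht : WGS (ea (SG H)) (eb (SG H)) hlf J t)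
    (n n' : ℤ) (hn : ∀ w, s (n, w) = t (n, w)) (hn' : ∀ w, s (n', w) = t (n', w))
    (m : ℤ) (h1 : n ≤ m) (h2 : m ≤ n') (w : W) : s (m, w) = t (m, w) := by
  classical
  rcases h1.eq_or_lt with h1 | h1
  · rw [← h1]; exact hn w
  rcases h2.eq_or_lt with h2 | h2
  · rw [h2]; exact hn' w
  have : Nonempty W := ⟨w⟩
  set B : Finset (ℤ × W) := (Finset.Ioo n n') ×ˢ Finset.univ with hB
  refine eq_on_of_eq_bd (ea (SG H)) (eb (SG H)) hlf
    (fun A hA => bd_nonempty hlf (sg_connected hH) A hA) J hnt s t hs ht B ?_ (m, w)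
    (by simp [hB, h1, h2])
  have key : ∀ x y : ℤ × W, (SG H).Adj x y → x ∈ B → y ∉ B → s y = t y := by
    intro x y hxy hx hy
    simp only [hB, Finset.mem_product, Finset.mem_Ioo, Finset.mem_univ, and_true] at hx hy
    have hy' : y.1 = n ∨ y.1 = n' := by
      rcases sg_adj hxy with ⟨h, _⟩ | ⟨h, _⟩ | ⟨h, _⟩ <;> omega
    obtain ⟨y1, y2⟩ := y
    rcases hy' with h | h
    · simp only at h; rw [h]; exact hn y2
    · simp only at h; rw [h]; exact hn' y2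
  intro e he
  rw [mem_bd] at he
  have hadj := edge_adj (SG H) e
  rcases he with ⟨h3, h4⟩ | ⟨h3, h4⟩
  · exact ⟨fun h => absurd h3 h, fun _ => key _ _ hadj h3 h4⟩
  · exact ⟨fun _ => key _ _ hadj.symm h4 h3, fun h => absurd h4 h⟩

/-- `s` and `t` are parallel (`ε = false`) or antiparallel (`ε = true`) far to the right -/
def farR (s t : ℤ × W → Bool) (ε : Bool) : Prop :=
  ∃ n0 : ℤ, ∀ n ≥ n0, ∀ w, s (n, w) = (xor (t (n, w)) ε)
/-- `s` and `t` are parallel (`ε = false`) or antiparallel (`ε = true`) far to the left -/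
def farL (s t : ℤ × W → Bool) (ε : Bool) : Prop :=
  ∃ n0 : ℤ, ∀ n ≤ n0, ∀ w, s (n, w) = (xor (t (n, w)) ε)

/-- there are (anti)parallel slices arbitrarily far to the right and to the left -/
def Q (J : (SG H).edgeSet → ℝ) : Prop :=
  ∀ s t, WGS (ea (SG H)) (eb (SG H)) hlf J s → WGS (ea (SG H)) (eb (SG H)) hlf J t →
    (∀ n0 : ℤ, ∃ n ≥ n0, ∃ ε, ∀ w, s (n, w) = (xor (t (n, w)) ε)) ∧
    (∀ n0 : ℤ, ∃ n ≤ n0, ∃ ε, ∀ w, s (n, w) = (xor (t (n, w)) ε))

lemma WGS_xor {J : (SG H).edgeSet → ℝ} {t : ℤ × W → Bool}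
    (ht : WGS (ea (SG H)) (eb (SG H)) hlf J t) (ε : Bool) :
    WGS (ea (SG H)) (eb (SG H)) hlf J (fun v => xor (t v) ε) := by
  cases ε
  · simpa using ht
  · simpa using WGS_not (ea (SG H)) (eb (SG H)) hlf ht

lemma dichotomy (hH : H.Connected) (J : (SG H).edgeSet → ℝ)
    (hnt : NoTie (ea (SG H)) (eb (SG H)) hlf J) (hQ : Q hlf J) (s t : ℤ × W → Bool)
    (hs : WGS (ea (SG H)) (eb (SG H)) hlf J s) (ht : WGS (ea (SG H)) (eb (SG H)) hlf J t) :
    (∃ ε, farR s t ε) ∧ (∃ ε, farL s t ε) := by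
  obtain ⟨hR, hL⟩ := hQ s t hs ht
  constructor
  · by_cases hf : ∀ n0 : ℤ, ∃ n ≥ n0, ∀ w, s (n, w) = (xor (t (n, w)) false)
    · refine ⟨false, ?_⟩
      obtain ⟨n0, -, hn0⟩ := hf 0
      refine ⟨n0, fun n hn w => ?_⟩
      obtain ⟨n', hn', hn'2⟩ := hf n
      exact slice_sandwich hlf hH J hnt s _ hs (WGS_xor hlf ht false) n0 n' hn0 hn'2 n hn hn' w
    · push Not at hf
      obtain ⟨n1, hn1⟩ := hf
      have hf' : ∀ n0 : ℤ, ∃ n ≥ n0, ∀ w, s (n, w) = (xor (t (n, w)) true) := by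
        intro n0
        obtain ⟨n, hn, ε, hε⟩ := hR (max n0 n1)
        cases ε
        · obtain ⟨w, hw⟩ := hn1 n (le_trans (le_max_right _ _) hn)
          exact absurd (hε w) hw
        · exact ⟨n, le_trans (le_max_left _ _) hn, hε⟩
      refine ⟨true, ?_⟩
      obtain ⟨n0, -, hn0⟩ := hf' 0
      refine ⟨n0, fun n hn w => ?_⟩
      obtain ⟨n', hn', hn'2⟩ := hf' n
      exact slice_sandwich hlf hH J hnt s _ hs (WGS_xor hlf ht true) n0 n' hn0 hn'2 n hn hn' w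
  · by_cases hf : ∀ n0 : ℤ, ∃ n ≤ n0, ∀ w, s (n, w) = (xor (t (n, w)) false)
    · refine ⟨false, ?_⟩
      obtain ⟨n0, -, hn0⟩ := hf 0
      refine ⟨n0, fun n hn w => ?_⟩
      obtain ⟨n', hn', hn'2⟩ := hf n
      exact slice_sandwich hlf hH J hnt s _ hs (WGS_xor hlf ht false) n' n0 hn'2 hn0 n hn' hn w
    · push Not at hf
      obtain ⟨n1, hn1⟩ := hf
      have hf' : ∀ n0 : ℤ, ∃ n ≤ n0, ∀ w, s (n, w) = (xor (t (n, w)) true) := by
        intro n0
        obtain ⟨n, hn, ε, hε⟩ := hL (min n0 n1)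
        cases ε
        · obtain ⟨w, hw⟩ := hn1 n (le_trans hn (min_le_right _ _))
          exact absurd (hε w) hw
        · exact ⟨n, le_trans hn (min_le_left _ _), hε⟩
      refine ⟨true, ?_⟩
      obtain ⟨n0, -, hn0⟩ := hf' 0
      refine ⟨n0, fun n hn w => ?_⟩
      obtain ⟨n', hn', hn'2⟩ := hf' n
      exact slice_sandwich hlf hH J hnt s _ hs (WGS_xor hlf ht true) n' n0 hn'2 hn0 n hn' hn w

lemma eq_of_far (hH : H.Connected) (J : (SG H).edgeSet → ℝ)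
    (hnt : NoTie (ea (SG H)) (eb (SG H)) hlf J) (s t : ℤ × W → Bool)
    (hs : WGS (ea (SG H)) (eb (SG H)) hlf J s) (ht : WGS (ea (SG H)) (eb (SG H)) hlf J t)
    (ε : Bool) (h1 : farR s t ε) (h2 : farL s t ε) : ∀ v, s v = xor (t v) ε := by
  obtain ⟨n1, hn1⟩ := h1
  obtain ⟨n2, hn2⟩ := h2
  rintro ⟨n, w⟩
  exact slice_sandwich hlf hH J hnt s _ hs (WGS_xor hlf ht ε) (min n2 n) (max n1 n)
    (hn2 _ (min_le_left _ _)) (hn1 _ (le_max_left _ _)) n (min_le_right _ _) (le_max_right _ _) w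

/-- The crossing events: two weak ground states agree on all slices `≥ k`, differ somewhere on
slice `k - 1` and are opposite far to the left. -/
def CR (k : ℤ) : Set ((SG H).edgeSet → ℝ) :=
  {J | ∃ M : ℕ, ∃ s t, WGS (ea (SG H)) (eb (SG H)) hlf J s ∧ WGS (ea (SG H)) (eb (SG H)) hlf J t ∧
    (∀ n ≥ k, ∀ w, s (n, w) = t (n, w)) ∧ (∃ w, s (k - 1, w) ≠ t (k - 1, w)) ∧
    (∀ n ≤ k - 1 - (M : ℤ), ∀ w, s (n, w) ≠ t (n, w))}

lemma measurableSet_CR (k : ℤ) : MeasurableSet (CR hlf k) := by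
  have : Countable (SG H).edgeSet := by
    have : Countable (ℤ × W) := inferInstance
    infer_instance
  have : CR hlf k = ⋃ M : ℕ, Prod.fst '' {p : ((SG H).edgeSet → ℝ) ×
      ((ℤ × W → Bool) × (ℤ × W → Bool)) | WGS (ea (SG H)) (eb (SG H)) hlf p.1 p.2.1 ∧
      WGS (ea (SG H)) (eb (SG H)) hlf p.1 p.2.2 ∧
      (∀ n ≥ k, ∀ w, p.2.1 (n, w) = p.2.2 (n, w)) ∧ (∃ w, p.2.1 (k - 1, w) ≠ p.2.2 (k - 1, w)) ∧
      (∀ n ≤ k - 1 - (M : ℤ), ∀ w, p.2.1 (n, w) ≠ p.2.2 (n, w))} := by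
    ext J
    simp only [CR, mem_ofPred_eq, mem_iUnion, mem_image, Prod.exists, exists_and_right,
      exists_eq_right]
  rw [this]
  refine MeasurableSet.iUnion fun M => IsClosed.measurableSet ?_
  refine isClosedMap_fst_of_compactSpace _ ?_
  have c1 : ∀ v : ℤ × W, Continuous (fun p : ((SG H).edgeSet → ℝ) ×
      ((ℤ × W → Bool) × (ℤ × W → Bool)) => p.2.1 v) := by intro v; fun_prop
  have c2 : ∀ v : ℤ × W, Continuous (fun p : ((SG H).edgeSet → ℝ) ×
      ((ℤ × W → Bool) × (ℤ × W → Bool)) => p.2.2 v) := by intro v; fun_prop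
  have hopen : ∀ v : ℤ × W, IsClosed {p : ((SG H).edgeSet → ℝ) ×
      ((ℤ × W → Bool) × (ℤ × W → Bool)) | p.2.1 v ≠ p.2.2 v} := by
    intro v
    have h1 : {p : ((SG H).edgeSet → ℝ) × ((ℤ × W → Bool) × (ℤ × W → Bool)) |
        p.2.1 v ≠ p.2.2 v} = {p | p.2.1 v = !(p.2.2 v)} := by
      ext p
      simp only [mem_ofPred_eq]
      generalize p.2.1 v = x; generalize p.2.2 v = y; revert x y; decide
    rw [h1]
    have h2 : Continuous (fun p : ((SG H).edgeSet → ℝ) ×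
      ((ℤ × W → Bool) × (ℤ × W → Bool)) => !(p.2.2 v)) :=
      (continuous_of_discreteTopology (f := fun b : Bool => !b)).comp (c2 v)
    exact isClosed_eq (c1 v) h2
  have hcl : IsClosed {p : ((SG H).edgeSet → ℝ) × (ℤ × W → Bool) |
      WGS (ea (SG H)) (eb (SG H)) hlf p.1 p.2} := isClosed_WGS _ _ hlf
  have hA : IsClosed {p : ((SG H).edgeSet → ℝ) × ((ℤ × W → Bool) × (ℤ × W → Bool)) |
      WGS (ea (SG H)) (eb (SG H)) hlf p.1 p.2.1} :=
    hcl.preimage (by fun_prop : Continuous fun p : ((SG H).edgeSet → ℝ) ×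
      ((ℤ × W → Bool) × (ℤ × W → Bool)) => (p.1, p.2.1))
  have hB : IsClosed {p : ((SG H).edgeSet → ℝ) × ((ℤ × W → Bool) × (ℤ × W → Bool)) |
      WGS (ea (SG H)) (eb (SG H)) hlf p.1 p.2.2} :=
    hcl.preimage (by fun_prop : Continuous fun p : ((SG H).edgeSet → ℝ) ×
      ((ℤ × W → Bool) × (ℤ × W → Bool)) => (p.1, p.2.2))
  have hC : IsClosed (⋂ n : ℤ, ⋂ (_ : n ≥ k), ⋂ w : W, {p : ((SG H).edgeSet → ℝ) ×
      ((ℤ × W → Bool) × (ℤ × W → Bool)) | p.2.1 (n, w) = p.2.2 (n, w)}) :=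
    isClosed_iInter fun n => isClosed_iInter fun _ => isClosed_iInter fun w =>
      isClosed_eq (c1 _) (c2 _)
  have hD : IsClosed (⋃ w : W, {p : ((SG H).edgeSet → ℝ) ×
      ((ℤ × W → Bool) × (ℤ × W → Bool)) | p.2.1 (k - 1, w) ≠ p.2.2 (k - 1, w)}) :=
    isClosed_iUnion_of_finite fun w => hopen _
  have hE : IsClosed (⋂ n : ℤ, ⋂ (_ : n ≤ k - 1 - (M : ℤ)), ⋂ w : W,
      {p : ((SG H).edgeSet → ℝ) × ((ℤ × W → Bool) × (ℤ × W → Bool)) |
        p.2.1 (n, w) ≠ p.2.2 (n, w)}) :=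
    isClosed_iInter fun n => isClosed_iInter fun _ => isClosed_iInter fun w => hopen _
  convert! hA.inter (hB.inter (hC.inter (hD.inter hE))) using 1
  ext p
  simp only [mem_ofPred_eq, mem_inter_iff, mem_iInter, mem_iUnion]

end strip

end Pool.Agent.Helper23.EA
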