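import Mathlib
import Pool.Agent.Helper23.EAStrip2

set_option autoImplicit false
open MeasureTheory Set Function
open scoped ENNReal

namespace Pool.Agent.Helper23.EA

section strip

variable {W : Type*} [Fintype W] {H : SimpleGraph W}
variable (hlf : ∀ v, {e : (SG H).edgeSet | ea (SG H) e = v ∨ eb (SG H) e = v}.Finite)

lemma CR_disjoint_aux (hH : H.Connected) (J : (SG H).edgeSet → ℝ)
    (hnt : NoTie (ea (SG H)) (eb (SG H)) hlf J) (hQ : Q hlf J) (k k' : ℤ) (hkk : k < k')
    (h1 : J ∈ CR hlf k) (h2 : J ∈ CR hlf k') : False := by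
  obtain ⟨M, s, t, hs, ht, hst1, hst2, hst3⟩ := h1
  obtain ⟨M', s', t', hs', ht', hst1', ⟨w0, hw0⟩, hst3'⟩ := h2
  have hR0 : farR s t false := ⟨k, fun n hn w => by simpa using hst1 n hn w⟩
  have hL0 : farL s t true := ⟨k - 1 - M, fun n hn w => by
    have := hst3 n hn w
    revert this; generalize s (n, w) = x; generalize t (n, w) = y; revert x y; decide⟩
  have hR0' : farR s' t' false := ⟨k', fun n hn w => by simpa using hst1' n hn w⟩
  have hL0' : farL s' t' true := ⟨k' - 1 - M', fun n hn w => by
    have := hst3' n hn w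
    revert this; generalize s' (n, w) = x; generalize t' (n, w) = y; revert x y; decide⟩
  -- symmetric and transitive combination
  have transR : ∀ (x y z : ℤ × W → Bool) (ε δ : Bool), farR x y ε → farR y z δ →
      farR x z (xor ε δ) := by
    rintro x y z ε δ ⟨n1, h1⟩ ⟨n2, h2⟩
    refine ⟨max n1 n2, fun n hn w => ?_⟩
    rw [h1 n (le_trans (le_max_left _ _) hn) w, h2 n (le_trans (le_max_right _ _) hn) w]
    cases z (n, w) <;> cases ε <;> cases δ <;> rfl
  have transL : ∀ (x y z : ℤ × W → Bool) (ε δ : Bool), farL x y ε → farL y z δ →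
      farL x z (xor ε δ) := by
    rintro x y z ε δ ⟨n1, h1⟩ ⟨n2, h2⟩
    refine ⟨min n1 n2, fun n hn w => ?_⟩
    rw [h1 n (le_trans hn (min_le_left _ _)) w, h2 n (le_trans hn (min_le_right _ _)) w]
    cases z (n, w) <;> cases ε <;> cases δ <;> rfl
  have symmR : ∀ (x y : ℤ × W → Bool) (ε : Bool), farR x y ε → farR y x ε := by
    rintro x y ε ⟨n1, h1⟩
    refine ⟨n1, fun n hn w => ?_⟩
    rw [h1 n hn w]
    cases y (n, w) <;> cases ε <;> rfl
  have symmL : ∀ (x y : ℤ × W → Bool) (ε : Bool), farL x y ε → farL y x ε := by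
    rintro x y ε ⟨n1, h1⟩
    refine ⟨n1, fun n hn w => ?_⟩
    rw [h1 n hn w]
    cases y (n, w) <;> cases ε <;> rfl
  obtain ⟨⟨ε, hε⟩, ⟨δ, hδ⟩⟩ := dichotomy hlf hH J hnt hQ s s' hs hs'
  -- the two difference patterns coincide
  have hD : ∀ v, (xor (s v) (t v)) = (xor (s' v) (t' v)) := by
    by_cases hεδ : ε = δ
    · subst hεδ
      have hss := eq_of_far hlf hH J hnt s s' hs hs' ε hε hδ
      have htR : farR t t' ε := by
        have := transR t s t' _ _ (symmR _ _ _ hR0) (transR s s' t' _ _ hε hR0')
        simpa using this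
      have htL : farL t t' ε := by
        have := transL t s t' _ _ (symmL _ _ _ hL0) (transL s s' t' _ _ hδ hL0')
        simpa using this
      have htt := eq_of_far hlf hH J hnt t t' ht ht' ε htR htL
      intro v
      rw [hss v, htt v]
      cases s' v <;> cases t' v <;> cases ε <;> rfl
    · have hδε : δ = !ε := by
        revert hεδ; generalize ε = x; generalize δ = y; revert x y; decide
      subst hδε
      have h1R : farR s t' ε := by simpa using transR s s' t' _ _ hε hR0'
      have h1L : farL s t' ε := by simpa using transL s s' t' _ _ hδ hL0'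
      have hst' := eq_of_far hlf hH J hnt s t' hs ht' ε h1R h1L
      have h2R : farR t s' ε := by
        have := transR t s s' _ _ (symmR _ _ _ hR0) hε
        simpa using this
      have h2L : farL t s' ε := by
        have := transL t s s' _ _ (symmL _ _ _ hL0) hδ
        simpa using this
      have hts' := eq_of_far hlf hH J hnt t s' ht hs' ε h2R h2L
      intro v
      rw [hst' v, hts' v]
      cases s' v <;> cases t' v <;> cases ε <;> rfl
  have := hst1 (k' - 1) (by omega) w0
  have h3 := hD (k' - 1, w0)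
  rw [this] at h3
  revert h3 hw0
  generalize s' (k' - 1, w0) = x; generalize t' (k' - 1, w0) = y
  generalize t (k' - 1, w0) = z; revert x y z; decide

lemma CR_shift (J : (SG H).edgeSet → ℝ) (k c : ℤ) (h : J ∈ CR hlf (k + c)) :
    (fun e => J ((shift (H := H) c).mapEdgeSet e)) ∈ CR hlf k := by
  obtain ⟨M, s, t, hs, ht, h1, ⟨w0, h2⟩, h3⟩ := h
  refine ⟨M, fun v => s (shift c v), fun v => t (shift c v), WGS_comp hlf _ hs,
    WGS_comp hlf _ ht, ?_, ⟨w0, ?_⟩, ?_⟩
  · intro n hn w
    simp only [shift_apply]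
    exact h1 _ (by omega) w
  · simp only [shift_apply]
    have : k - 1 + c = k + c - 1 := by ring
    rw [this]; exact h2
  · intro n hn w
    simp only [shift_apply]
    exact h3 _ (by omega) w

lemma CR_preimage (k c : ℤ) :
    (fun (J : (SG H).edgeSet → ℝ) => fun e => J ((shift (H := H) c).mapEdgeSet e)) ⁻¹' (CR hlf k)
      = CR hlf (k + c) := by
  ext J
  constructor
  · intro h
    have h' : (fun e => J ((shift (H := H) c).mapEdgeSet e)) ∈ CR hlf ((k + c) + (-c)) := by
      have : (k + c) + (-c) = k := by ring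
      rw [this]; exact h
    have := CR_shift hlf _ (k + c) (-c) h'
    convert! this using 1
    funext e
    congr 1
    apply Subtype.ext
    show (e : Sym2 (ℤ × W)) = Sym2.map (shift c) (Sym2.map (shift (-c)) (e : Sym2 (ℤ × W)))
    rw [Sym2.map_map]
    have : ((shift (H := H) c) ∘ (shift (H := H) (-c)) : ℤ × W → ℤ × W) = id := by
      funext ⟨n, w⟩
      simp [shift_apply]
    rw [this, Sym2.map_id]; rfl
  · exact CR_shift hlf J k c

lemma CR_null (hH : H.Connected) (μ : Measure ℝ) [IsProbabilityMeasure μ]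
    (hae : ∀ᵐ J ∂(Measure.infinitePi fun _ : (SG H).edgeSet => μ),
      NoTie (ea (SG H)) (eb (SG H)) hlf J ∧ Q hlf J) (k : ℤ) :
    (Measure.infinitePi fun _ : (SG H).edgeSet => μ) (CR hlf k) = 0 := by
  set P := (Measure.infinitePi fun _ : (SG H).edgeSet => μ) with hP
  have hconst : ∀ c : ℤ, P (CR hlf (k + c)) = P (CR hlf k) := by
    intro c
    rw [← CR_preimage hlf k c]
    exact (measurePreserving_edge (shift (H := H) c) μ).measure_preimage
      (measurableSet_CR hlf k).nullMeasurableSet
  have hdisj : Pairwise (Function.onFun (AEDisjoint P) fun c : ℤ => CR hlf (k + c)) := by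
    intro c c' hcc
    show P _ = 0
    refine measure_mono_null (t := {J | ¬ (NoTie (ea (SG H)) (eb (SG H)) hlf J ∧ Q hlf J)}) ?_
      (ae_iff.1 hae)
    rintro J ⟨h1, h2⟩ ⟨h3, h4⟩
    rcases lt_or_gt_of_ne hcc with h | h
    · exact CR_disjoint_aux hlf hH J h3 h4 _ _ (by omega) h1 h2
    · exact CR_disjoint_aux hlf hH J h3 h4 _ _ (by omega) h2 h1
  have hsum : ∑' c : ℤ, P (CR hlf (k + c)) ≤ 1 := by
    rw [← measure_iUnion₀ hdisj fun c => (measurableSet_CR hlf _).nullMeasurableSet]
    exact prob_le_one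
  by_contra hne
  simp only [hconst] at hsum
  rw [ENNReal.tsum_const_eq_top_of_ne_zero hne] at hsum
  exact absurd hsum (by simp)

/-- uniqueness given good slices -/
lemma unique_of_Q (hH : H.Connected) (J : (SG H).edgeSet → ℝ)
    (hnt : NoTie (ea (SG H)) (eb (SG H)) hlf J) (hQ : Q hlf J)
    (hCR : ∀ k, J ∉ CR hlf k) (s t : ℤ × W → Bool)
    (hs : WGS (ea (SG H)) (eb (SG H)) hlf J s) (ht : WGS (ea (SG H)) (eb (SG H)) hlf J t) :
    t = s ∨ t = fun v => !(s v) := by
  have : Nonempty W := hH.nonempty
  -- excluded: parallel to the right, antiparallel to the left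
  have excl : ∀ x y : ℤ × W → Bool, WGS (ea (SG H)) (eb (SG H)) hlf J x →
      WGS (ea (SG H)) (eb (SG H)) hlf J y → farR x y false → farL x y true → False := by
    rintro x y hx hy ⟨n1, h1⟩ ⟨n2, h2⟩
    classical
    -- the least `k` with agreement on all slices `≥ k`
    have hbdd : ∃ b : ℤ, ∀ z : ℤ, (∀ n ≥ z, ∀ w, x (n, w) = y (n, w)) → b ≤ z := by
      refine ⟨n2, fun z hz => ?_⟩
      by_contra hlt
      push Not at hlt
      obtain ⟨w⟩ := this
      have h3 := hz n2 hlt.le w
      have h4 := h2 n2 le_rfl w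
      rw [h3] at h4
      revert h4; generalize y (n2, w) = q; revert q; decide
    obtain ⟨k, hk, hkmin⟩ := Int.exists_least_of_bdd hbdd
      ⟨n1, fun n hn w => by simpa using h1 n hn w⟩
    apply hCR k
    refine ⟨(k - 1 - n2).toNat, x, y, hx, hy, hk, ?_, ?_⟩
    · by_contra hcon
      push Not at hcon
      have := hkmin (k - 1) (fun n hn w => by
        rcases hn.lt_or_eq with h | h
        · exact hk n (by omega) w
        · rw [← h]; exact hcon w)
      omega
    · intro n hn w
      have h3 := h2 n (by omega) w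
      rw [h3]; generalize y (n, w) = q; revert q; decide
  obtain ⟨⟨ε, hε⟩, ⟨δ, hδ⟩⟩ := dichotomy hlf hH J hnt hQ t s ht hs
  by_cases hεδ : ε = δ
  · subst hεδ
    have := eq_of_far hlf hH J hnt t s ht hs ε hε hδ
    cases ε
    · left; funext v; simpa using this v
    · right; funext v; simpa using this v
  · exfalso
    cases ε
    · have hd : δ = true := by revert hεδ; cases δ <;> decide
      subst hd
      exact excl t s ht hs hε hδ
    · have hd : δ = false := by revert hεδ; cases δ <;> decide
      subst hd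
      refine excl t (fun v => !(s v)) ht (WGS_not _ _ hlf hs) ?_ ?_
      · obtain ⟨n1, h1⟩ := hε
        exact ⟨n1, fun n hn w => by simpa using h1 n hn w⟩
      · obtain ⟨n1, h1⟩ := hδ
        exact ⟨n1, fun n hn w => by simpa using h1 n hn w⟩

end strip

end Pool.Agent.Helper23.EA
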