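import Mathlib
import Pool.Agent.Helper23.EAStrip3

set_option autoImplicit false
open MeasureTheory Set Function
open scoped ENNReal

namespace Pool.Agent.Helper23.EA

section strip

variable {W : Type*} [Fintype W] {H : SimpleGraph W}
variable (hlf : ∀ v, {e : (SG H).edgeSet | ea (SG H) e = v ∨ eb (SG H) e = v}.Finite)

/-- the block of slices `[c, c + L)` -/
noncomputable def Blk (W : Type*) [Fintype W] (c : ℤ) (L : ℕ) : Finset (ℤ × W) :=
  (Finset.Ico c (c + L)) ×ˢ Finset.univ

lemma mem_Blk {c : ℤ} {L : ℕ} {v : ℤ × W} : v ∈ Blk W c L ↔ c ≤ v.1 ∧ v.1 < c + L := by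
  simp [Blk]

/-- edges touching the block -/
noncomputable def tch (c : ℤ) (L : ℕ) : Finset (SG H).edgeSet := by
  classical exact (Blk W c L).biUnion fun v => (hlf v).toFinset

lemma mem_tch {c : ℤ} {L : ℕ} {e : (SG H).edgeSet} :
    e ∈ tch hlf c L ↔ (ea (SG H) e ∈ Blk W c L ∨ eb (SG H) e ∈ Blk W c L) := by
  classical
  simp only [tch, Finset.mem_biUnion, Finite.mem_toFinset, mem_ofPred_eq]
  constructor
  · rintro ⟨v, hv, h | h⟩
    · left; rw [h]; exact hv
    · right; rw [h]; exact hv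
  · rintro (h | h)
    · exact ⟨_, h, Or.inl rfl⟩
    · exact ⟨_, h, Or.inr rfl⟩

lemma mem_tch' {c : ℤ} {L : ℕ} {e : (SG H).edgeSet} :
    e ∈ tch hlf c L ↔ ∃ v ∈ Blk W c L, v ∈ (e : Sym2 (ℤ × W)) := by
  rw [mem_tch, edge_eq (SG H) e]
  simp only [Sym2.mem_iff]
  constructor
  · rintro (h | h)
    · exact ⟨_, h, Or.inl rfl⟩
    · exact ⟨_, h, Or.inr rfl⟩
  · rintro ⟨v, hv, rfl | rfl⟩
    · exact Or.inl hv
    · exact Or.inr hv

/-- nonconstant slices -/
noncomputable def NC (s : ℤ × W → Bool) (c : ℤ) (L : ℕ) : Finset ℤ := by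
  classical exact (Finset.Ico c (c + L)).filter fun j => ¬ ∀ w w', s (j, w) = s (j, w')

omit [Fintype W] in
/-- a nonconstant function on a connected graph has a sign change along an edge -/
lemma exists_adj_change (hH : H.Connected) (f : W → Bool) (h : ¬ ∀ w w', f w = f w') :
    ∃ w w', H.Adj w w' ∧ f w = false ∧ f w' = true := by
  by_contra hcon
  push Not at hcon
  apply h
  have key : ∀ x y, H.Adj x y → f x = f y := by
    intro x y hxy
    cases hx : f x <;> cases hy : f y
    · rfl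
    · exact absurd hy (hcon x y hxy hx)
    · exact absurd hx (hcon y x hxy.symm hy)
    · rfl
  intro w w'
  obtain ⟨p⟩ := hH.preconnected w w'
  induction p with
  | nil => rfl
  | cons hxy _ ih => exact (key _ _ hxy).trans ih

lemma NC_bound (hH : H.Connected) (J : (SG H).edgeSet → ℝ) (α β : ℝ) (c : ℤ) (L : ℕ)
    (hJ : ∀ e ∈ tch hlf c L, α ≤ J e ∧ J e ≤ β) (hα : 0 < α) (s : ℤ × W → Bool)
    (hs : WGS (ea (SG H)) (eb (SG H)) hlf J s) :
    α * ((NC s c L).card : ℝ) ≤ 2 * (Fintype.card W : ℝ) * β ∨ NC s c L = ∅ := by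
  classical
  by_cases hNC : NC s c L = ∅
  · exact Or.inr hNC
  left
  set A := (Blk W c L).filter fun v => s v = false with hA
  set D := bd (ea (SG H)) (eb (SG H)) hlf A with hD
  set U := D.filter fun e => ea (SG H) e ∈ Blk W c L ∧ eb (SG H) e ∈ Blk W c L with hU
  set O := D.filter fun e => ¬ (ea (SG H) e ∈ Blk W c L ∧ eb (SG H) e ∈ Blk W c L) with hO
  have hDt : ∀ e ∈ D, e ∈ tch hlf c L := by
    intro e he
    rw [hD, mem_bd] at he
    rw [mem_tch]
    rcases he with ⟨h, _⟩ | ⟨_, h⟩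
    · left; exact (Finset.mem_filter.1 h).1
    · right; exact (Finset.mem_filter.1 h).1
  -- card NC ≤ card U
  have hcard1 : (NC s c L).card ≤ U.card := by
    have hsub : NC s c L ⊆ U.image fun e => (ea (SG H) e).1 := by
      intro j hj
      simp only [NC, Finset.mem_filter, Finset.mem_Ico] at hj
      obtain ⟨⟨hj1, hj2⟩, hj3⟩ := hj
      obtain ⟨w, w', hww, hw, hw'⟩ := exists_adj_change hH (fun w => s (j, w)) hj3
      have hadj : (SG H).Adj (j, w) (j, w') := by
        rw [SimpleGraph.boxProd_adj]; right; exact ⟨hww, rfl⟩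
      rw [Finset.mem_image]
      refine ⟨⟨s((j, w), (j, w')), hadj⟩, ?_, ?_⟩
      · have heq := edge_eq (SG H) ⟨s((j, w), (j, w')), hadj⟩
        simp only [Sym2.eq_iff] at heq
        have hb1 : (j, w) ∈ Blk W c L := mem_Blk.2 ⟨hj1, hj2⟩
        have hb2 : (j, w') ∈ Blk W c L := mem_Blk.2 ⟨hj1, hj2⟩
        have hA1 : (j, w) ∈ A := by simp [hA, hb1, hw]
        have hA2 : (j, w') ∉ A := by simp [hA, hw']
        rw [hU, Finset.mem_filter, hD, mem_bd]
        rcases heq with ⟨h1, h2⟩ | ⟨h1, h2⟩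
        · rw [← h1, ← h2]; exact ⟨Or.inl ⟨hA1, hA2⟩, hb1, hb2⟩
        · rw [← h1, ← h2]; exact ⟨Or.inr ⟨hA2, hA1⟩, hb2, hb1⟩
      · have heq := edge_eq (SG H) ⟨s((j, w), (j, w')), hadj⟩
        simp only [Sym2.eq_iff] at heq
        rcases heq with ⟨h1, h2⟩ | ⟨h1, h2⟩
        · rw [← h1]
        · rw [← h2]
    exact (Finset.card_le_card hsub).trans Finset.card_image_le
  -- card O ≤ 2 card W
  have hcard2 : O.card ≤ 2 * Fintype.card W := by
    let f : (SG H).edgeSet → ℤ × W := fun e =>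
      if ea (SG H) e ∈ Blk W c L then eb (SG H) e else ea (SG H) e
    have hf : ∀ e ∈ O, ∃ v ∈ Blk W c L, f e ∉ Blk W c L ∧ (SG H).Adj v (f e) ∧
        (e : Sym2 (ℤ × W)) = s(v, f e) := by
      intro e he
      rw [hO, Finset.mem_filter] at he
      obtain ⟨he1, he2⟩ := he
      have ht := hDt e he1
      rw [mem_tch] at ht
      by_cases h1 : ea (SG H) e ∈ Blk W c L
      · have h2 : eb (SG H) e ∉ Blk W c L := fun h => he2 ⟨h1, h⟩
        refine ⟨_, h1, ?_⟩
        simp only [f, h1, if_true]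
        exact ⟨h2, edge_adj (SG H) e, edge_eq (SG H) e⟩
      · have h2 : eb (SG H) e ∈ Blk W c L := ht.resolve_left h1
        refine ⟨_, h2, ?_⟩
        simp only [f, h1, if_false]
        exact ⟨not_false, (edge_adj (SG H) e).symm, by rw [edge_eq (SG H) e, Sym2.eq_swap]⟩
    have hloc : ∀ v y : ℤ × W, v ∈ Blk W c L → y ∉ Blk W c L → (SG H).Adj v y →
        (y.1 = c - 1 ∧ v = (c, y.2)) ∨ (y.1 = c + L ∧ v = (c + L - 1, y.2)) := by
      rintro ⟨v1, v2⟩ ⟨y1, y2⟩ hv hy hvy
      rw [mem_Blk] at hv hy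
      simp only at hv hy
      rcases sg_adj hvy with ⟨h, _⟩ | ⟨h, h'⟩ | ⟨h, h'⟩
      · simp only at h; omega
      · simp only at h h'; right; refine ⟨by simp only; omega, ?_⟩
        rw [Prod.mk.injEq]; exact ⟨by omega, h'.symm⟩
      · simp only at h h'; left; refine ⟨by simp only; omega, ?_⟩
        rw [Prod.mk.injEq]; exact ⟨by omega, h'.symm⟩
    have hinj : Set.InjOn f O := by
      intro e he e' he' hee
      obtain ⟨v, hv, hv1, hv2, hv3⟩ := hf e he
      obtain ⟨v', hv', hv1', hv2', hv3'⟩ := hf e' he'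
      apply Subtype.ext
      rw [hv3, hv3', ← hee]
      rw [← hee] at hv1' hv2'
      have : v = v' := by
        rcases hloc v (f e) hv hv1 hv2 with ⟨h1, h2⟩ | ⟨h1, h2⟩ <;>
        rcases hloc v' (f e) hv' hv1' hv2' with ⟨h3, h4⟩ | ⟨h3, h4⟩
        · rw [h2, h4]
        · omega
        · omega
        · rw [h2, h4]
      rw [this]
    have hmaps : ∀ e ∈ O, f e ∈ (({c - 1, c + L} : Finset ℤ) ×ˢ (Finset.univ : Finset W)) := by
      intro e he
      obtain ⟨v, hv, hv1, hv2, hv3⟩ := hf e he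
      simp only [Finset.mem_product, Finset.mem_univ, and_true, Finset.mem_insert,
        Finset.mem_singleton]
      rcases hloc v (f e) hv hv1 hv2 with ⟨h, _⟩ | ⟨h, _⟩
      · exact Or.inl h
      · exact Or.inr h
    calc O.card ≤ (({c - 1, c + L} : Finset ℤ) ×ˢ (Finset.univ : Finset W)).card :=
          Finset.card_le_card_of_injOn f hmaps hinj
      _ ≤ 2 * Fintype.card W := by
          rw [Finset.card_product, Finset.card_univ]
          exact Nat.mul_le_mul_right _ Finset.card_le_two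
  -- energy estimate
  have hEn : En (ea (SG H)) (eb (SG H)) hlf J s A ≤ -(α * (U.card : ℝ)) + β * (O.card : ℝ) := by
    unfold En
    rw [← hD, ← Finset.sum_filter_add_sum_filter_not D
      (fun e => ea (SG H) e ∈ Blk W c L ∧ eb (SG H) e ∈ Blk W c L)]
    refine add_le_add ?_ ?_
    · calc _ ≤ ∑ _e ∈ U, (-α) := by
            refine Finset.sum_le_sum fun e he => ?_
            rw [Finset.mem_filter] at he
            obtain ⟨he1, he2, he3⟩ := he
            have hJe := (hJ e (hDt e he1)).1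
            rw [hD, mem_bd] at he1
            simp only [hA, Finset.mem_filter, he2, he3, true_and] at he1
            have : sp (s (ea (SG H) e)) * sp (s (eb (SG H) e)) = -1 := by
              rcases he1 with ⟨h1, h2⟩ | ⟨h1, h2⟩
              · have h2' : s (eb (SG H) e) = true := by simpa using h2
                rw [h1, h2']; simp [sp]
              · have h1' : s (ea (SG H) e) = true := by simpa using h1
                rw [h1', h2]; simp [sp]
            rw [this]; linarith
        _ = -(α * (U.card : ℝ)) := by rw [Finset.sum_const, nsmul_eq_mul]; ring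
    · calc _ ≤ ∑ _e ∈ O, β := by
            refine Finset.sum_le_sum fun e he => ?_
            rw [Finset.mem_filter] at he
            have hJe := hJ e (hDt e he.1)
            have habs : |sp (s (ea (SG H) e)) * sp (s (eb (SG H) e))| = 1 := by
              rw [abs_mul, abs_sp, abs_sp, mul_one]
            calc J e * (sp (s (ea (SG H) e)) * sp (s (eb (SG H) e)))
                ≤ |J e * (sp (s (ea (SG H) e)) * sp (s (eb (SG H) e)))| := le_abs_self _
              _ = J e := by rw [abs_mul, habs, mul_one, abs_of_nonneg (hα.le.trans hJe.1)]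
              _ ≤ β := hJe.2
        _ = β * (O.card : ℝ) := by rw [Finset.sum_const, nsmul_eq_mul]; ring
  have h0 := hs A
  -- β ≥ 0 since the block touches an edge
  have hβ : 0 ≤ β := by
    obtain ⟨j, hj⟩ := Finset.nonempty_iff_ne_empty.2 hNC
    have hUne : U.card ≠ 0 := by
      intro h
      rw [h] at hcard1
      have := Finset.card_pos.2 ⟨j, hj⟩
      omega
    obtain ⟨e, he⟩ := Finset.card_pos.1 (Nat.pos_of_ne_zero hUne)
    have := hJ e (hDt e (Finset.mem_filter.1 he).1)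
    linarith [this.1, this.2]
  have h1 : α * ((NC s c L).card : ℝ) ≤ α * (U.card : ℝ) :=
    mul_le_mul_of_nonneg_left (by exact_mod_cast hcard1) hα.le
  have h2 : β * (O.card : ℝ) ≤ β * (2 * (Fintype.card W : ℝ)) :=
    mul_le_mul_of_nonneg_left (by exact_mod_cast hcard2) hβ
  linarith

/-- in a good block, any two weak ground states are (anti)parallel on some slice -/
lemma good_slice (hH : H.Connected) (J : (SG H).edgeSet → ℝ) (α β : ℝ) (c : ℤ) (L : ℕ)
    (hJ : ∀ e ∈ tch hlf c L, α ≤ J e ∧ J e ≤ β) (hα : 0 < α)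
    (hL : 4 * (Fintype.card W : ℝ) * |β| < α * L) (s t : ℤ × W → Bool)
    (hs : WGS (ea (SG H)) (eb (SG H)) hlf J s) (ht : WGS (ea (SG H)) (eb (SG H)) hlf J t) :
    ∃ j, c ≤ j ∧ j < c + L ∧ ∃ ε, ∀ w, s (j, w) = (xor (t (j, w)) ε) := by
  classical
  obtain ⟨w0⟩ := hH.nonempty
  have hb : ∀ x : ℤ × W → Bool, WGS (ea (SG H)) (eb (SG H)) hlf J x →
      α * ((NC x c L).card : ℝ) ≤ 2 * (Fintype.card W : ℝ) * |β| := by
    intro x hx
    rcases NC_bound hlf hH J α β c L hJ hα x hx with h | h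
    · refine h.trans ?_
      exact mul_le_mul_of_nonneg_left (le_abs_self _) (by positivity)
    · rw [h]; simp; positivity
  have h1 := hb s hs
  have h2 := hb t ht
  have hlt : α * (((NC s c L) ∪ (NC t c L)).card : ℝ) < α * L := by
    have : (((NC s c L) ∪ (NC t c L)).card : ℝ) ≤ (NC s c L).card + (NC t c L).card := by
      exact_mod_cast Finset.card_union_le _ _
    have := mul_le_mul_of_nonneg_left this hα.le
    linarith
  have hlt' : ((NC s c L) ∪ (NC t c L)).card < (Finset.Ico c (c + L)).card := by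
    have := lt_of_mul_lt_mul_left hlt hα.le
    rw [Int.card_Ico]
    have h3 : (c + L - c).toNat = L := by simp
    rw [h3]
    exact_mod_cast this
  obtain ⟨j, hj1, hj2⟩ := Finset.exists_mem_notMem_of_card_lt_card hlt'
  rw [Finset.mem_Ico] at hj1
  rw [Finset.mem_union, not_or] at hj2
  have hsc : ∀ w w', s (j, w) = s (j, w') := by
    by_contra h
    exact hj2.1 (Finset.mem_filter.2 ⟨Finset.mem_Ico.2 hj1, h⟩)
  have htc : ∀ w w', t (j, w) = t (j, w') := by
    by_contra h
    exact hj2.2 (Finset.mem_filter.2 ⟨Finset.mem_Ico.2 hj1, h⟩)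
  refine ⟨j, hj1.1, hj1.2, xor (s (j, w0)) (t (j, w0)), fun w => ?_⟩
  rw [hsc w w0, htc w w0]
  cases s (j, w0) <;> cases t (j, w0) <;> rfl


/-- the event that all couplings touching the block lie in `[α, β]` -/
def GB (α β : ℝ) (c : ℤ) (L : ℕ) : Set ((SG H).edgeSet → ℝ) :=
  {J | ∀ e ∈ tch hlf c L, α ≤ J e ∧ J e ≤ β}

lemma GB_eq_pi (α β : ℝ) (c : ℤ) (L : ℕ) :
    GB hlf α β c L = Set.pi (tch hlf c L : Set (SG H).edgeSet) fun _ => Set.Icc α β := by
  ext J; simp [GB, Set.mem_pi, mem_Icc]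

lemma measurableSet_GB (α β : ℝ) (c : ℤ) (L : ℕ) : MeasurableSet (GB hlf α β c L) := by
  rw [GB_eq_pi]
  exact MeasurableSet.pi (Finset.countable_toSet _) fun _ _ => measurableSet_Icc

lemma GB_preimage (α β : ℝ) (c : ℤ) (L : ℕ) :
    (fun (J : (SG H).edgeSet → ℝ) => fun e => J ((shift (H := H) c).mapEdgeSet e)) ⁻¹'
      (GB hlf α β 0 L) = GB hlf α β c L := by
  ext J
  simp only [GB, mem_preimage, mem_ofPred_eq]
  constructor
  · intro h e he
    have h' := h ((shift (H := H) c).mapEdgeSet.symm e) ?_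
    · simpa only [Equiv.apply_symm_apply] using h'
    · rw [mem_tch'] at he ⊢
      obtain ⟨⟨v1, v2⟩, hv, hve⟩ := he
      refine ⟨(v1 - c, v2), ?_, ?_⟩
      · rw [mem_Blk] at hv ⊢; simp only at hv ⊢; omega
      · show (v1 - c, v2) ∈ Sym2.map (shift (H := H) c).symm (e : Sym2 (ℤ × W))
        rw [Sym2.mem_map]
        refine ⟨(v1, v2), hve, ?_⟩
        rw [RelIso.symm_apply_eq]
        simp [shift_apply]
  · intro h e he
    refine h _ ?_
    rw [mem_tch'] at he ⊢
    obtain ⟨⟨v1, v2⟩, hv, hve⟩ := he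
    refine ⟨(v1 + c, v2), ?_, ?_⟩
    · rw [mem_Blk] at hv ⊢; simp only at hv ⊢; omega
    · show (v1 + c, v2) ∈ Sym2.map (shift (H := H) c) (e : Sym2 (ℤ × W))
      rw [Sym2.mem_map]
      exact ⟨(v1, v2), hve, rfl⟩

lemma tch_disjoint (c c' : ℤ) (L : ℕ) (h : c + L + 2 ≤ c') :
    Disjoint (tch hlf c L) (tch hlf c' L) := by
  rw [Finset.disjoint_left]
  intro e he he'
  rw [mem_tch, mem_Blk, mem_Blk] at he he'
  have hadj := edge_adj (SG H) e
  rcases sg_adj hadj with ⟨h1, _⟩ | ⟨h1, _⟩ | ⟨h1, _⟩ <;> omega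

lemma ae_frequently_good (μ : Measure ℝ) [IsProbabilityMeasure μ] (α β : ℝ)
    (hp : μ (Set.Icc α β) ≠ 0) (L : ℕ) (σ : ℤ) (hσ : σ = 1 ∨ σ = -1) :
    ∀ᵐ J ∂(Measure.infinitePi fun _ : (SG H).edgeSet => μ),
      ∀ m : ℕ, ∃ m' ≥ m, J ∈ GB hlf α β (σ * (m' * (L + 2))) L := by
  classical
  set P := (Measure.infinitePi fun _ : (SG H).edgeSet => μ) with hP
  let s : ℕ → Set ((SG H).edgeSet → ℝ) := fun m => GB hlf α β (σ * (m * (L + 2))) L
  have hsm : ∀ m, MeasurableSet (s m) := fun m => measurableSet_GB hlf _ _ _ _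
  have hPs : ∀ m, P (s m) = P (GB hlf α β 0 L) := by
    intro m
    show P (GB hlf α β (σ * (m * (L + 2))) L) = _
    rw [← GB_preimage hlf α β (σ * (m * (L + 2))) L]
    exact (measurePreserving_edge _ μ).measure_preimage
      (measurableSet_GB hlf α β 0 L).nullMeasurableSet
  have hpos : P (GB hlf α β 0 L) ≠ 0 := by
    rw [GB_eq_pi, hP, Measure.infinitePi_pi _ (fun _ _ => measurableSet_Icc), Finset.prod_ne_zero_iff]
    exact fun _ _ => hp
  have hdisj : ∀ m m' : ℕ, m ≠ m' → Disjoint (tch hlf (σ * (m * (L + 2))) L)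
      (tch hlf (σ * (m' * (L + 2))) L) := by
    intro m m' hmm
    wlog hlt : m < m' generalizing m m'
    · exact (this m' m hmm.symm (lt_of_le_of_ne (not_lt.1 hlt) hmm.symm)).symm
    have h1 : (m : ℤ) * (L + 2) + (L + 2) ≤ m' * (L + 2) := by
      have : (m : ℤ) + 1 ≤ m' := by exact_mod_cast hlt
      nlinarith
    rcases hσ with rfl | rfl
    · exact tch_disjoint hlf _ _ L (by linarith)
    · exact (tch_disjoint hlf _ _ L (by linarith)).symm
  have hind : ProbabilityTheory.iIndepSet s P := by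
    rw [ProbabilityTheory.iIndepSet_iff_meas_biInter hsm]
    intro T
    have hinter : (⋂ m ∈ T, s m) = Set.pi
        ((T.biUnion fun m => tch hlf (σ * (m * (L + 2))) L : Finset (SG H).edgeSet) :
          Set (SG H).edgeSet) fun _ => Set.Icc α β := by
      ext J
      simp only [s, GB, mem_iInter, mem_ofPred_eq, Set.mem_pi, Finset.mem_coe,
        Finset.mem_biUnion, mem_Icc]
      constructor
      · rintro h e ⟨m, hm, he⟩; exact h m hm e he
      · intro h m hm e he; exact h e ⟨m, hm, he⟩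
    rw [hinter, hP, Measure.infinitePi_pi _ (fun _ _ => measurableSet_Icc),
      Finset.prod_biUnion fun m _ m' _ hmm => hdisj m m' hmm]
    refine Finset.prod_congr rfl fun m _ => ?_
    show _ = Measure.infinitePi _ (GB hlf α β (σ * (m * (L + 2))) L)
    rw [GB_eq_pi, Measure.infinitePi_pi _ (fun _ _ => measurableSet_Icc)]
  have hsum : (∑' n, P (s n)) = ∞ := by
    simp only [hPs]
    exact ENNReal.tsum_const_eq_top_of_ne_zero hpos
  have h1 := ProbabilityTheory.measure_limsup_eq_one hsm hind hsum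
  have h2 : ∀ᵐ J ∂P, J ∈ Filter.limsup s Filter.atTop := by
    rw [← MeasureTheory.prob_compl_eq_zero_iff₀] at h1
    · exact h1
    · exact (MeasurableSet.measurableSet_limsup hsm).nullMeasurableSet
  filter_upwards [h2] with J hJ m
  rw [Filter.mem_limsup_iff_frequently_mem] at hJ
  obtain ⟨m', hm', hm2⟩ := Filter.frequently_atTop.1 hJ m
  exact ⟨m', hm', hm2⟩

/-- **Main theorem for strips.** -/
theorem strip_main (hH : H.Connected) (μ : Measure ℝ) [IsProbabilityMeasure μ]
    (hμ : ∀ x, μ {x} = 0) (hpos : μ (Set.Ioi 0) ≠ 0) :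
    ∀ᵐ J ∂(Measure.infinitePi fun _ : (SG H).edgeSet => μ),
      ∃ σ : ℤ × W → ℝ, {τ : ℤ × W → ℝ | (∀ x, τ x = 1 ∨ τ x = -1) ∧
      ∀ σ' : ℤ × W → ℝ, (∀ x, σ' x = 1 ∨ σ' x = -1) → {x | σ' x ≠ τ x}.Finite → σ' ≠ τ →
        0 < ∑ᶠ e : (SG H).edgeSet, J e * (((e : Sym2 (ℤ × W)).map τ).mul
          - ((e : Sym2 (ℤ × W)).map σ').mul)}
      = {σ, -σ} := by
  have : Nonempty W := hH.nonempty
  have hlf : ∀ v, {e : (SG H).edgeSet | ea (SG H) e = v ∨ eb (SG H) e = v}.Finite :=
    graph_lf (SG H) sg_lf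
  have : NullSingletonClass μ := ⟨hμ⟩
  have : ∀ _e : (SG H).edgeSet, NullSingletonClass μ := fun _ => inferInstance
  have : Countable (SG H).edgeSet := by
    have : Countable (ℤ × W) := inferInstance
    infer_instance
  -- choose α, β
  obtain ⟨α, β, hα, hp⟩ : ∃ α β : ℝ, 0 < α ∧ μ (Set.Icc α β) ≠ 0 := by
    by_contra hcon
    push Not at hcon
    apply hpos
    have hsub : Set.Ioi (0 : ℝ) ⊆ ⋃ k : ℕ, Set.Icc (1 / ((k : ℝ) + 1)) ((k : ℝ) + 1) := by
      intro x hx
      rw [mem_iUnion]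
      have hx0 : (0 : ℝ) < x := hx
      obtain ⟨k, hk⟩ := exists_nat_ge (max x (1 / x))
      have hk1 : x ≤ k := (le_max_left _ _).trans hk
      have hk2 : 1 / x ≤ k := (le_max_right _ _).trans hk
      refine ⟨k, ?_, by linarith⟩
      rw [div_le_iff₀ (by positivity)]
      rw [div_le_iff₀ hx0] at hk2
      nlinarith
    refine measure_mono_null hsub (measure_iUnion_null fun k => ?_)
    exact hcon _ _ (by positivity)
  obtain ⟨L, hL⟩ := exists_nat_gt (4 * (Fintype.card W : ℝ) * |β| / α)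
  have hL' : 4 * (Fintype.card W : ℝ) * |β| < α * L := by
    rw [div_lt_iff₀ hα] at hL; linarith
  have hnt := ae_noTie (ea (SG H)) (eb (SG H)) hlf (fun _ : (SG H).edgeSet => μ)
  have hR := ae_frequently_good hlf μ α β hp L 1 (Or.inl rfl)
  have hLft := ae_frequently_good hlf μ α β hp L (-1) (Or.inr rfl)
  have hQ : ∀ᵐ J ∂(Measure.infinitePi fun _ : (SG H).edgeSet => μ), Q hlf J := by
    filter_upwards [hR, hLft] with J h1 h2
    intro s t hs ht
    constructor
    · intro n0
      obtain ⟨m', hm', hJ⟩ := h1 n0.toNat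
      obtain ⟨j, hj1, hj2, hj3⟩ := good_slice hlf hH J α β _ L hJ hα hL' s t hs ht
      refine ⟨j, ?_, hj3⟩
      have h3 : n0 ≤ (m' : ℤ) := by
        have := Int.self_le_toNat n0
        have h4 : (n0.toNat : ℤ) ≤ m' := by exact_mod_cast hm'
        linarith
      have h4 : (0 : ℤ) ≤ m' := by positivity
      nlinarith
    · intro n0
      obtain ⟨m', hm', hJ⟩ := h2 (-n0 + L).toNat
      obtain ⟨j, hj1, hj2, hj3⟩ := good_slice hlf hH J α β _ L hJ hα hL' s t hs ht
      refine ⟨j, ?_, hj3⟩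
      have h3 : -n0 + L ≤ (m' : ℤ) := by
        have := Int.self_le_toNat (-n0 + L)
        have h4 : ((-n0 + L).toNat : ℤ) ≤ m' := by exact_mod_cast hm'
        linarith
      have h4 : (0 : ℤ) ≤ m' := by positivity
      have h5 : (0 : ℤ) ≤ L := by positivity
      nlinarith
  have hCR : ∀ᵐ J ∂(Measure.infinitePi fun _ : (SG H).edgeSet => μ), ∀ k, J ∉ CR hlf k := by
    rw [ae_all_iff]
    intro k
    have := CR_null hlf hH μ (hnt.and hQ) k
    rw [ae_iff]; simpa using this
  filter_upwards [hnt, hQ, hCR] with J h1 h2 h3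
  exact pair_of_good hlf (sg_connected hH) J h1 fun s t hs ht =>
    unique_of_Q hlf hH J h1 h2 h3 s t hs ht

end strip

end Pool.Agent.Helper23.EA
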